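import Pool.Agent.MWHP.StmtsF

/-!
# Row UX1 of squad MWH
-/

namespace Pool.Agent.MWHP.F.H13

open Pool.Agent.Helper14_MV Pool.Agent.Helper2_MV Pool.Agent.MVO Pool.Agent.MWL Pool.Agent.MWS
open Pool.Agent.MWH


open Pool.Agent.MWH

variable {n : ℕ}

theorem vd1 : Vd 1 (vc [1, 1]) (vc [2, 0]) 0 := by
  refine ⟨by omega, by simp [vc], by simp [vc], ?_, ?_, ?_⟩
  · intro j hj hne
    have : j = 1 := by omega
    subst this
    right
    simp [vc]
  · simp [deg, vc, Finset.sum_range_succ]
  · simp [deg, vc, Finset.sum_range_succ]

theorem ux1 (psl : PslStmt n) (pin : PinStmt n) : Ux1Stmt n := by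
  intro β θ hH hle k a b i p V hL hb hz
  have hip := hL.uv
  constructor
  · intro h
    obtain ⟨g, gl, gr⟩ : ∃ g : ℕ → ℕ, (∀ j, j ≤ i → g j = 0) ∧ (∀ j, i < j → g j = 1) :=
      ⟨fun j => if j ≤ i then 0 else 1, fun j hj => if_pos hj, fun j hj => if_neg (by omega)⟩
    have g0 : g i = 0 := gl i (le_refl i)
    have hV : Vd 1 (vc [1, 1]) (vc [2, 0]) (g i) := by
      rw [g0]; exact vd1
    have hB : BMap k 1 g := by
      constructor
      · intro j j' hjj' _
        by_cases h1 : j ≤ i
        · rw [gl j h1]
          exact Nat.zero_le _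
        · rw [gr j (by omega), gr j' (by omega)]
      · intro j _
        by_cases h1 : j ≤ i
        · rw [gl j h1]
          exact Nat.zero_le _
        · rw [gr j (by omega)]
    have hT := psl β θ hH hle k 1 g a b (vc [1, 1]) (vc [2, 0]) i hB V hV ?_ ?_ ?_ ?_ hb ?_ h
    · rw [g0] at hT
      exact hT
    · intro j' hj'
      right; left
      rcases (show j' = 0 ∨ j' = 1 by omega) with e | e
      · subst e
        refine ⟨by simp [vc], i, by rw [hL.au], ?_⟩
        intro j hj hg hne
        have hji : j ≤ i := by
          by_contra hcon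
          rw [gr j (by omega)] at hg
          omega
        exact hL.az j hj hne (by omega)
      · subst e
        refine ⟨by simp [vc], p, by rw [hL.av], ?_⟩
        intro j hj hg hne
        have hji : ¬ j ≤ i := by
          intro hcon
          rw [gl j hcon] at hg
          omega
        exact hL.az j hj (by omega) hne
    · intro j' hj'
      rcases (show j' = 0 ∨ j' = 1 by omega) with e | e
      · subst e
        left
        simp [vc]
      · subst e
        right; right
        intro j hj hg
        have hji : ¬ j ≤ i := by
          intro hcon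
          rw [gl j hcon] at hg
          omega
        exact hz j (by omega) hj
    · intro j hj hg hne
      have hji : j ≤ i := by
        by_contra hcon
        rw [g0, gr j (by omega)] at hg
        omega
      exact ⟨hL.az j hj hne (by omega), Or.inl (by omega)⟩
    · rw [g0, hL.au]
      simp [vc]
    · rw [g0]
      simp [vc]
  · intro h
    obtain ⟨f, f0, f1⟩ : ∃ f : ℕ → ℕ, f 0 = i ∧ f 1 = p :=
      ⟨fun j => if j = 0 then i else p, rfl, rfl⟩
    have hT := pin β θ hH hle 1 k f (vc [1, 1])
      (vc [2, 0]) a b 0 ?_ ?_ vd1 ?_ ?_ ?_ ?_ Stt.yx Stt.ov ?_ ?_ h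
    · rw [f0] at hT
      exact hT
    · intro j hj
      have : j = 0 := by omega
      subst this
      rw [f0, f1]
      exact hip
    · rw [f1]
      exact hL.vk
    · rw [f0]; exact V
    · intro j hj
      rcases (show j = 0 ∨ j = 1 by omega) with e | e
      · subst e
        rw [f0, hL.au]
        simp only [vc]
        simp
        omega
      · subst e
        rw [f1, hL.av]
        simp [vc]
    · rw [f0, hL.au]
      simp [vc]
    · rw [f0]
      simp only [vc]
      simp
      omega
    · intro h'
      exact absurd h' (by decide)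
    · intro _
      right
      simp [vc]

end Pool.Agent.MWHP.F.H13
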