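import Pool.Agent.MWHP.StmtsF

set_option autoImplicit false

namespace Pool.Agent.MWHP.F.H23

open Pool.Agent.Helper14_MV Pool.Agent.Helper2_MV Pool.Agent.MVO Pool.Agent.MWL Pool.Agent.MWS


open Pool.Agent.MWH

variable {n : ℕ}

theorem tra_of {θ : FIC} {k : ℕ} {a b : ℕ → ℕ} {i : ℕ}
    (h1 : Tr θ k a b i Stt.xy Stt.yx) (h2 : Tr θ k a b i Stt.xy Stt.ov)
    (h3 : Tr θ k a b i Stt.yx Stt.ov) : TrA θ k a b i := by
  intro s s' _ _
  cases s with
  | xy =>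
    cases s' with
    | xy => exact RR.refl _
    | yx => exact h1
    | ov => exact h2
  | yx =>
    cases s' with
    | xy => exact RR.symm h1
    | yx => exact RR.refl _
    | ov => exact h3
  | ov =>
    cases s' with
    | xy => exact RR.symm h2
    | yx => exact RR.symm h3
    | ov => exact RR.refl _

theorem kk1_first (hALL : AllStmt n) (hPIN : PinStmt n) (hKHH : KhhStmt n) {β : FIC} (h : S8 n β)
    {k : ℕ} {a b : ℕ → ℕ} {i m : ℕ} (hv : Vd k a b i) (ha : 2 ≤ a i) (him : i < m) (hm : m ≤ k)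
    (h2 : 2 ≤ b m) : TrA β k a b i := by
  by_cases hb : 2 ≤ b i
  · exact hKHH β h k a b i hv ha hb
  · have hb1 : b i = 1 := by
      have := hv.bi
      omega
    have hk : Tr β 1 (vc [2, 0]) (vc [1, 2]) 0 Stt.xy Stt.yx := h.k1
    have v0 : Vd 1 (vc [2, 0]) (vc [1, 2]) 0 :=
      ⟨by decide, by decide, by decide, by decide, by decide, by decide⟩
    have h4 : Tr β k a b i Stt.xy Stt.yx := by
      refine hPIN β β h.toBaseH (FIC.le_refl' _) 1 k (vc [i, m]) (vc [2, 0]) (vc [1, 2]) a b 0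
        ?_ ?_ v0 hv ?_ ?_ ?_ Stt.xy Stt.yx ?_ ?_ hk
      · intro j hj
        interval_cases j
        exact him
      · exact hm
      · intro j hj
        interval_cases j
        · change (2 ≠ 0 → a i ≠ 0) ∧ (2 ≤ 2 → 2 ≤ a i) ∧ (1 ≠ 0 → b i ≠ 0) ∧ (2 ≤ 1 → 2 ≤ b i)
          omega
        · change (0 ≠ 0 → a m ≠ 0) ∧ (2 ≤ 0 → 2 ≤ a m) ∧ (2 ≠ 0 → b m ≠ 0) ∧ (2 ≤ 2 → 2 ≤ b m)
          omega
      · change 2 = 1 ↔ a i = 1
        omega
      · change 1 = 1 ↔ b i = 1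
        omega
      · intro h0
        cases h0
      · intro h0
        cases h0
    obtain ⟨h5, h6⟩ := hALL β β h.toBaseH (FIC.le_refl' _) k a b i hv (Or.inl ha) h4
    exact tra_of h4 h5 h6

theorem kk1 (hSWT : SwtStmt n) (hALL : AllStmt n) (hPIN : PinStmt n) (hKHH : KhhStmt n) : Kk1Stmt n := by
  intro β h k a b i hv hd
  rcases hd with ⟨ha, m, hm1, hm2, hm3⟩ | ⟨hb, m, hm1, hm2, hm3⟩
  · exact kk1_first hALL hPIN hKHH h hv ha hm1 hm2 hm3
  · obtain ⟨hv', h2⟩ := hSWT β β h.toBaseH (FIC.le_refl' _) k a b i hv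
    have h3 := kk1_first hALL hPIN hKHH h hv' hb hm1 hm2 hm3
    intro s s' hs hs'
    obtain ⟨h4, h5⟩ := h2 s s' hs hs'
    exact h5.2 (h3 _ _ h4 (h2 s' s' hs' hs').1)

end Pool.Agent.MWHP.F.H23
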