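import Pool.Agent.MWHP.StmtsF
import Pool.Agent.MWS.StmtsA

/-!
Two light letters of degree two.
-/

set_option autoImplicit false

namespace Pool.Agent.MWHP.F.H24

open Pool.Agent.Helper14_MV Pool.Agent.Helper2_MV Pool.Agent.MVO Pool.Agent.MWL Pool.Agent.MWS


open Pool.Agent.MWH

variable {n : ℕ}

theorem ll_one {k : ℕ} {a : ℕ → ℕ} {u v i : ℕ} (h : LL2 k a u v) (hi : i ≤ k) (ha : a i ≠ 0) :
    a i = 1 := by
  by_cases h1 : i = u
  · rw [h1]
    exact h.au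
  · by_cases h2 : i = v
    · rw [h2]
      exact h.av
    · exact absurd (h.az i hi h1 h2) ha

theorem jll (hlr : LrnStmt n) (hlt : Lt2Stmt n) (hjp : JpcStmt n) (hj2 : J2sStmt n) : JllStmt n := by
  intro β hS k a b i u v u' v' hv hu hu'
  have hB : BaseH n β := hS.toBaseH
  have key : ∀ θ : FIC, β ≤ θ → Has n (FC.ofFIC θ) (Bit.J 2) → Tr θ k a b i Stt.xy Stt.yx :=
    fun θ hle hJ => hj2 β θ hS hle hJ k a b i u v hv hu (Or.inl ⟨u', v', hu'⟩) Stt.xy Stt.yx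
      (fun h => by cases h) (fun h => by cases h)
  exact hjp β hB k a b i u v (fun _ => False) hv hu (fun _ _ h => h.elim) Stt.xy Stt.yx
    (Or.inl ⟨ll_one hu hv.ik hv.ai, ll_one hu' hv.ik hv.bi, rfl, rfl⟩)
    (fun θ hle _ hJ => key θ hle hJ)
    (fun θ hle _ j hj _ hA => key θ hle
      ((hlt (FC.ofFIC θ) (hlr β θ hB.toBasN hle) k b u' v' hu').1 ⟨j, hj, hA⟩))

end Pool.Agent.MWHP.F.H24
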