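import Pool.Agent.MWHP.StmtsF

/-!
The identity `k9` in general position.
-/

set_option autoImplicit false

namespace Pool.Agent.MWHP.F.H24

open Pool.Agent.Helper14_MV Pool.Agent.Helper2_MV Pool.Agent.MVO Pool.Agent.MWL Pool.Agent.MWS


open Pool.Agent.MWH

variable {n : ℕ}

theorem vs_xy' (a b : ℕ → ℕ) (i : ℕ) : Vs a b i Stt.xy := fun h => by cases h

theorem vs_yx' (a b : ℕ → ℕ) (i : ℕ) : Vs a b i Stt.yx := fun h => by cases h

theorem vd9 : Vd 3 (vc [1, 0, 1, 0]) (vc [1, 2, 0, 2]) 0 where
  ik := by decide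
  ai := by decide
  bi := by decide
  un := by
    intro j hj h
    have h1 : j = 1 ∨ j = 2 ∨ j = 3 := by omega
    rcases h1 with rfl | rfl | rfl <;> decide
  da := by decide
  db := by decide

/-- four blocks -/
def f4 (i m p z : ℕ) : ℕ → ℕ := fun j => if j = 0 then i else if j = 1 then m else
  if j = 2 then p else z

theorem kk9 (hpin : PinStmt n) : Kk9Stmt n := by
  intro β hH k a b i m p z hv hai hbi h1 h2 h3 h4 hbm hap hbz
  have h0 : Tr β 3 (vc [1, 0, 1, 0]) (vc [1, 2, 0, 2]) 0 Stt.xy Stt.yx := hH.k9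
  have hp : Tr β k a b (f4 i m p z 0) Stt.xy Stt.yx := by
    refine hpin β β hH.toS8.toBaseH (FIC.le_refl' β) 3 k (f4 i m p z) _ _ a b 0 ?_ h4 vd9 hv ?_
      ?_ ?_ Stt.xy Stt.yx (vs_xy' _ _ _) (vs_yx' _ _ _) h0
    · intro j hj
      have h5 : j = 0 ∨ j = 1 ∨ j = 2 := by omega
      rcases h5 with rfl | rfl | rfl
      · exact h1
      · exact h2
      · exact h3
    · intro j hj
      have h5 : j = 0 ∨ j = 1 ∨ j = 2 ∨ j = 3 := by omega
      rcases h5 with rfl | rfl | rfl | rfl
      · have e : f4 i m p z 0 = i := rfl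
        rw [e, hai, hbi]
        decide
      · have e : f4 i m p z 1 = m := rfl
        rw [e]
        refine ⟨fun h => absurd rfl h, fun h => absurd h (by decide), fun _ => by omega,
          fun _ => hbm⟩
      · have e : f4 i m p z 2 = p := rfl
        rw [e]
        refine ⟨fun _ => hap, fun h => absurd h (by decide), fun h => absurd rfl h,
          fun h => absurd h (by decide)⟩
      · have e : f4 i m p z 3 = z := rfl
        rw [e]
        refine ⟨fun h => absurd rfl h, fun h => absurd h (by decide), fun _ => by omega,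
          fun _ => hbz⟩
    · exact ⟨fun _ => hai, fun _ => rfl⟩
    · exact ⟨fun _ => hbi, fun _ => rfl⟩
  have hp' : Tr β k a b i Stt.xy Stt.yx := hp
  have hno : ¬ Vs a b i Stt.ov := by
    intro h
    have := h rfl
    omega
  intro s s' hs hs'
  cases s
  · cases s'
    · exact β.refl _
    · exact hp'
    · exact absurd hs' hno
  · cases s'
    · exact β.symm hp'
    · exact β.refl _
    · exact absurd hs' hno
  · exact absurd hs hno

end Pool.Agent.MWHP.F.H24
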