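import Pool.Agent.MWHP.StmtsF
import Pool.Agent.MWS.StmtsA

/-!
# MWH, row EK5 (helper30)
-/

namespace Pool.Agent.MWHP.F.H30K

open Pool.Agent.Helper14_MV Pool.Agent.Helper2_MV Pool.Agent.MVO Pool.Agent.MWL Pool.Agent.MWS
  Pool.Agent.MWH


open Pool.Agent.MWH

variable {n : ℕ}

theorem ek5 (hLRN : LrnStmt n) (hLT3 : Lt3Stmt n) (hLT4 : Lt4Stmt n) (hBJ5 : Bj5Stmt n)
    (hUEV : UevStmt n) (hJEV : JevStmt n) : Ek5Stmt n := by
  intro β hH k a b i p hV hN hL hn hb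
  obtain ⟨⟨hS, hJ3⟩, hD1⟩ := hBJ5 β hH
  have hLR := hLRN β β hS.toBasN (fun _ _ h => h)
  have hm := hLT3 (FC.ofFIC β) hLR hJ3 k b hN hV.db hn i hV.ik hb
  have h0 : ∀ j < i, b j = 0 := by
    intro j hj
    by_contra hj0
    have h1 : 1 ≤ lb b i := by
      unfold lb
      apply Finset.card_pos.2
      exact ⟨j, Finset.mem_filter.2 ⟨Finset.mem_range.2 hj, hj0⟩⟩
    have h2 := (hLT4 (FC.ofFIC β) hLR k b hN hV.db i hV.ik hV.bi).2.2 hJ3 hD1 hn h1
    omega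
  refine ⟨[ce 2 [1, 1, 0] [0, 1, 2] 1 Stt.xy Stt.yx], ?_, ?_⟩
  · intro e he
    rw [List.mem_singleton] at he
    rw [he]
    exact hJEV β hS
  · intro θ hθ _
    rw [hUEV β θ hS.toBaseH hθ k a b i p hV hL hb h0 hm]
    constructor
    · intro h e he
      rw [List.mem_singleton] at he
      rw [he]
      exact h
    · intro h
      exact h _ (List.mem_singleton.2 rfl)

end Pool.Agent.MWHP.F.H30K
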