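import Pool.Agent.MWHP.StmtsF

set_option autoImplicit false

namespace Pool.Agent.MWHP.F.H33.L

open Pool.Agent.Helper14_MV Pool.Agent.Helper2_MV Pool.Agent.MVO Pool.Agent.MWL Pool.Agent.MWS
open Pool.Agent.MWH


open Pool.Agent.MWH

variable {n : ℕ}

theorem tlh_ex {k i : ℕ} {a : ℕ → ℕ} (hd : 2 ≤ deg k a) (hai : a i = 1) :
    ∃ p, p ≤ k ∧ p ≠ i ∧ a p ≠ 0 := by
  by_contra hno
  push Not at hno
  have h1 : deg k a ≤ 1 := by
    unfold deg
    calc ∑ j ∈ Finset.range (k + 1), a j ≤ ∑ j ∈ Finset.range (k + 1), (if j = i then 1 else 0) := by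
          apply Finset.sum_le_sum
          intro j hj
          rw [Finset.mem_range] at hj
          by_cases h : j = i
          · subst h
            rw [if_pos rfl, hai]
          · rw [if_neg h, hno j (by omega) h]
      _ ≤ 1 := by
          rw [Finset.sum_ite_eq']
          split_ifs <;> omega
  omega

theorem tra_of {θ : FIC} {k : ℕ} {a b : ℕ → ℕ} {i : ℕ} (h1 : Tr θ k a b i Stt.xy Stt.ov)
    (h2 : Tr θ k a b i Stt.yx Stt.ov) : TrA θ k a b i := by
  intro s s' _ _
  have key : ∀ t : Stt, Tr θ k a b i t Stt.ov := by
    intro t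
    cases t with
    | xy => exact h1
    | yx => exact h2
    | ov => exact θ.refl _
  exact θ.trans (key s) (θ.symm (key s'))

theorem tlh (swt : SwtStmt n) (all : AllStmt n) (pin : PinStmt n) : TlhStmt n := by
  intro β hβ k a b i hv hbi
  have hB : BaseH n β := hβ.toBaseH
  have hle : β ≤ β := fun _ _ h => h
  have hai0 := hv.ai
  have hi := hv.ik
  rcases Nat.lt_or_ge 1 (a i) with hai | hai
  · -- both heavy
    have hv0 : Vd 0 (vc [2]) (vc [2]) 0 :=
      ⟨by omega, by decide, by decide, by intro j hj hj2; omega, by decide, by decide⟩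
    have h5 := RR.sub (fun c => if c = 2 then [] else [c]) hβ.t5
    have h6 : Tr β 0 (vc [2]) (vc [2]) 0 Stt.xy Stt.ov := h5
    have h7 : Tr β 0 (vc [2]) (vc [2]) 0 Stt.yx Stt.ov :=
      ((swt β β hB hle 0 (vc [2]) (vc [2]) 0 hv0).2 Stt.xy Stt.ov (by intro h; cases h)
        (fun _ => Or.inl (by decide))).2.1 h6
    have push : ∀ s : Stt, Tr β 0 (vc [2]) (vc [2]) 0 s Stt.ov → Tr β k a b i s Stt.ov := by
      intro s hs
      exact pin β β hB hle 0 k (fun _ => i) (vc [2]) (vc [2]) a b 0 (by intro j hj; omega) hi hv0 hv
        (by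
          intro j hj
          have : j = 0 := by omega
          subst this
          simp [vc]
          omega)
        (by simp [vc]; omega) (by simp [vc]; omega) s Stt.ov (fun _ => Or.inl (by decide))
        (fun _ => Or.inl (by decide)) hs
    exact tra_of (push _ h6) (push _ h7)
  · have hai1 : a i = 1 := by omega
    obtain ⟨p, hpk, hpi, hap⟩ := tlh_ex hv.da hai1
    rcases Nat.lt_or_gt_of_ne hpi with hlt | hgt
    · have h := pin β β hB hle 1 k (fun j => if j = 0 then p else i) (vc [1, 1]) (vc [0, 2]) a b 1
        (by intro j hj; have : j = 0 := by omega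
            subst this; simpa using hlt) (by simpa using hi)
        ⟨by omega, by decide, by decide, by decide, by decide, by decide⟩ (by simpa using hv)
        (by
          intro j hj
          have hj2 : j = 0 ∨ j = 1 := by omega
          rcases hj2 with rfl | rfl
          · simp [vc, hap]
          · simp [vc, hai1]
            omega)
        (by simp [vc, hai1]) (by simp [vc]; omega) Stt.xy Stt.yx (by intro h; cases h)
        (by intro h; cases h) hβ.t5
      have h1 : Tr β k a b i Stt.xy Stt.yx := by simpa using h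
      obtain ⟨h2, h3⟩ := all β β hB hle k a b i hv (Or.inr hbi) h1
      exact tra_of h2 h3
    · obtain ⟨hv', hsw⟩ := swt β β hB hle k a b i hv
      have h := pin β β hB hle 1 k (fun j => if j = 0 then i else p) (vc [2, 0]) (vc [1, 1]) b a 0
        (by intro j hj; have : j = 0 := by omega
            subst this; simpa using hgt) (by simpa using hpk)
        ⟨by omega, by decide, by decide, by decide, by decide, by decide⟩ (by simpa using hv')
        (by
          intro j hj
          have hj2 : j = 0 ∨ j = 1 := by omega
          rcases hj2 with rfl | rfl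
          · simp [vc, hai1]
            omega
          · simp [vc, hap])
        (by simp [vc]; omega) (by simp [vc, hai1]) Stt.xy Stt.yx (by intro h; cases h)
        (by intro h; cases h) hβ.t4
      have h1 : Tr β k b a i Stt.xy Stt.yx := by simpa using h
      obtain ⟨h2, h3⟩ := all β β hB hle k b a i hv' (Or.inl hbi) h1
      have h4 : Tr β k a b i Stt.yx Stt.ov :=
        ((hsw Stt.yx Stt.ov (by intro h; cases h) (fun _ => Or.inr hbi)).2).2 h2
      have h5 : Tr β k a b i Stt.xy Stt.ov :=
        ((hsw Stt.xy Stt.ov (by intro h; cases h) (fun _ => Or.inr hbi)).2).2 h3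
      exact tra_of h5 h4

end Pool.Agent.MWHP.F.H33.L
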