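import Pool.Agent.MWHP.StmtsF

set_option autoImplicit false

namespace Pool.Agent.MWHP.F.H33.T

open Pool.Agent.Helper14_MV Pool.Agent.Helper2_MV Pool.Agent.MVO Pool.Agent.MWL Pool.Agent.MWS
open Pool.Agent.MWH


open Pool.Agent.MWH

variable {n : ℕ}

theorem tll_ex {k i : ℕ} {a : ℕ → ℕ} (hd : 2 ≤ deg k a) (hai : a i = 1) :
    ∃ p, p ≤ k ∧ p ≠ i ∧ a p ≠ 0 := by
  by_contra hno
  push Not at hno
  have h1 : deg k a ≤ 1 := by
    unfold deg
    calc ∑ j ∈ Finset.range (k + 1), a j ≤ ∑ j ∈ Finset.range (k + 1), (if j = i then 1 else 0) := by
          apply Finset.sum_le_sum
          intro j hj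
          rw [Finset.mem_range] at hj
          by_cases h : j = i
          · subst h
            rw [if_pos rfl, hai]
          · rw [if_neg h, hno j (by omega) h]
      _ ≤ 1 := by
          rw [Finset.sum_ite_eq']
          split_ifs <;> omega
  omega

theorem tll (swt : SwtStmt n) (pin : PinStmt n) : TllStmt n := by
  intro β hβ k a b i m hv hai hbi him hmk hbm
  have hB : BaseH n β := hβ.toBaseH
  have hle : β ≤ β := fun _ _ h => h
  obtain ⟨p, hpk, hpi, hap⟩ := tll_ex hv.da hai
  have hpm : p ≠ m := by
    rintro rfl
    rcases hv.un p hpk hpi with h | h
    · exact hap h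
    · omega
  have key : Tr β k a b i Stt.xy Stt.yx := by
    rcases Nat.lt_or_gt_of_ne hpi with hlt | hgt
    · have h := pin β β hB hle 2 k (fun j => if j = 0 then p else if j = 1 then i else m)
        (vc [1, 1, 0]) (vc [0, 1, 2]) a b 1
        (by intro j hj
            have : j = 0 ∨ j = 1 := by omega
            rcases this with rfl | rfl
            · simpa using hlt
            · simpa using him) (by simpa using hmk)
        ⟨by omega, by decide, by decide, by decide, by decide, by decide⟩ (by simpa using hv)
        (by
          intro j hj
          have hj2 : j = 0 ∨ j = 1 ∨ j = 2 := by omega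
          rcases hj2 with rfl | rfl | rfl
          · simp [vc, hap]
          · simp [vc, hai, hbi]
          · simp [vc]
            omega)
        (by simp [vc, hai]) (by simp [vc, hbi]) Stt.xy Stt.yx (by intro h; cases h)
        (by intro h; cases h) hβ.t2
      simpa using h
    · rcases Nat.lt_or_gt_of_ne hpm with hlt | hgt2
      · have h := pin β β hB hle 2 k (fun j => if j = 0 then i else if j = 1 then p else m)
          (vc [1, 1, 0]) (vc [1, 0, 2]) a b 0
          (by intro j hj
              have : j = 0 ∨ j = 1 := by omega
              rcases this with rfl | rfl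
              · simpa using hgt
              · simpa using hlt) (by simpa using hmk)
          ⟨by omega, by decide, by decide, by decide, by decide, by decide⟩ (by simpa using hv)
          (by
            intro j hj
            have hj2 : j = 0 ∨ j = 1 ∨ j = 2 := by omega
            rcases hj2 with rfl | rfl | rfl
            · simp [vc, hai, hbi]
            · simp [vc, hap]
            · simp [vc]
              omega)
          (by simp [vc, hai]) (by simp [vc, hbi]) Stt.xy Stt.yx (by intro h; cases h)
          (by intro h; cases h) hβ.t1
        simpa using h
      · obtain ⟨hv', hsw⟩ := swt β β hB hle k a b i hv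
        have h := pin β β hB hle 2 k (fun j => if j = 0 then i else if j = 1 then m else p)
          (vc [1, 2, 0]) (vc [1, 0, 1]) b a 0
          (by intro j hj
              have : j = 0 ∨ j = 1 := by omega
              rcases this with rfl | rfl
              · simpa using him
              · simpa using hgt2) (by simpa using hpk)
          ⟨by omega, by decide, by decide, by decide, by decide, by decide⟩ (by simpa using hv')
          (by
            intro j hj
            have hj2 : j = 0 ∨ j = 1 ∨ j = 2 := by omega
            rcases hj2 with rfl | rfl | rfl
            · simp [vc, hai, hbi]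
            · simp [vc]
              omega
            · simp [vc, hap])
          (by simp [vc, hbi]) (by simp [vc, hai]) Stt.xy Stt.yx (by intro h; cases h)
          (by intro h; cases h) hβ.t3
        have h3 : Tr β k b a i Stt.xy Stt.yx := by simpa using h
        exact β.symm (((hsw Stt.yx Stt.xy (by intro h; cases h) (by intro h; cases h)).2).2 h3)
  intro s s' hs hs'
  have hno : ∀ t : Stt, Vs a b i t → t ≠ Stt.ov := by
    intro t ht h
    rcases ht h with h1 | h1 <;> omega
  have hs1 := hno s hs
  have hs2 := hno s' hs'
  cases s with
  | xy =>
    cases s' with
    | xy => exact β.refl _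
    | yx => exact key
    | ov => exact absurd rfl hs2
  | yx =>
    cases s' with
    | xy => exact β.symm key
    | yx => exact β.refl _
    | ov => exact absurd rfl hs2
  | ov => exact absurd rfl hs1

end Pool.Agent.MWHP.F.H33.T
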