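import Pool.Agent.MWHP.StmtsF

/-!
The canonical edge KP2 is join prime (after `Helper24_MWH/K10.lean`).
-/

set_option autoImplicit false

namespace Pool.Agent.MWHP.F.H34

open Pool.Agent.Helper14_MV Pool.Agent.Helper2_MV Pool.Agent.MVO Pool.Agent.MWL Pool.Agent.MWS


open Pool.Agent.MWH

variable {n : ℕ}

theorem vs_xy (a b : ℕ → ℕ) (i : ℕ) : Vs a b i Stt.xy := fun h => by cases h

theorem vs_yx (a b : ℕ → ℕ) (i : ℕ) : Vs a b i Stt.yx := fun h => by cases h

theorem vdK : Vd 3 (vc [0, 1, 1, 0]) (vc [1, 0, 1, 2]) 2 where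
  ik := by decide
  ai := by decide
  bi := by decide
  un := by
    intro j hj h
    have h1 : j = 0 ∨ j = 1 ∨ j = 3 := by omega
    rcases h1 with rfl | rfl | rfl <;> decide
  da := by decide
  db := by decide

theorem llK : LL2 3 (vc [0, 1, 1, 0]) 1 2 where
  uv := by decide
  vk := by decide
  au := by decide
  av := by decide
  az := by
    intro j hj h h'
    have h1 : j = 0 ∨ j = 3 := by omega
    rcases h1 with rfl | rfl <;> decide

theorem kp2 (hjp : JpcStmt n) (hab : AbjStmt n) (hao : AboStmt n) (hhv : HvjStmt n) (hlh : LhlStmt n)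
    (hj2 : J2sStmt n) : Kp2Stmt n := by
  intro β hS
  have hn : 1 ≤ n := hS.pos
  have hB : BaseH n β := hS.toBaseH
  refine hjp β hB 3 (vc [0, 1, 1, 0]) (vc [1, 0, 1, 2]) 2 1 2 (fun j => j = 3) vdK llK
    (fun j _ h => by subst h; decide) Stt.xy Stt.yx (Or.inl ⟨by decide, by decide, rfl, rfl⟩)
    ?_ ?_
  · intro θ hle _ hJ
    exact (hj2 β θ hS hle hJ 3 (vc [0, 1, 1, 0]) (vc [1, 0, 1, 2]) 2 1 2 vdK llK
      (Or.inr (Or.inr ⟨by decide, 3, by decide, by decide, by decide⟩))) _ _ (vs_xy _ _ _)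
        (vs_yx _ _ _)
  · intro θ hle _ j hj hF hA
    have h1 : j = 0 ∨ j = 1 ∨ j = 2 := by omega
    rcases h1 with rfl | rfl | rfl
    · obtain ⟨v1, r1⟩ := hab β θ hB hle 3 _ _ 2 vdK 0 hj hA (Or.inr (by decide))
      obtain ⟨v2', r2⟩ := hhv β hB 3 _ _ 2 0 v1 (by decide) (by first | decide | (simp [ad, vc] <;> omega))
      have r3 := (hlh β hS 3 _ _ 2 1 v2' (by decide) (by first | decide | (simp [ad, vc] <;> omega)) (by decide)
        (by decide)).2.1 ⟨3, by decide, by decide, by first | decide | (simp [ad, vc] <;> omega)⟩ Stt.xy Stt.yx (vs_xy _ _ _)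
          (vs_yx _ _ _)
      have r4 := (r2 θ hle Stt.xy Stt.yx (vs_xy _ _ _) (vs_yx _ _ _)).2 (hle _ _ r3)
      exact θ.trans (r1 Stt.xy (vs_xy _ _ _)) (θ.trans r4 (θ.symm (r1 Stt.yx (vs_yx _ _ _))))
    · exact hao β θ hB hle 3 _ _ 2 vdK 1 hj (by decide) (Or.inr ⟨by decide, hA⟩) _ _
        (vs_xy _ _ _) (vs_yx _ _ _)
    · obtain ⟨v1, r1⟩ := hab β θ hB hle 3 _ _ 2 vdK 2 hj hA (Or.inl rfl)
      have r3 := (hlh β hS 3 _ _ 2 1 v1 (by decide) (by first | decide | (simp [ad, vc] <;> omega)) (by decide)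
        (by decide)).2.1 ⟨3, by decide, by decide, by first | decide | (simp [ad, vc] <;> omega)⟩ Stt.xy Stt.yx (vs_xy _ _ _)
          (vs_yx _ _ _)
      exact θ.trans (r1 Stt.xy (vs_xy _ _ _))
        (θ.trans (hle _ _ r3) (θ.symm (r1 Stt.yx (vs_yx _ _ _))))

end Pool.Agent.MWHP.F.H34
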