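import Pool.Agent.MWHP.StmtsF

/-!
# Block MWHP, row DI5
-/

set_option autoImplicit false

namespace Pool.Agent.MWHP.F.H36

open Pool.Agent.Helper14_MV Pool.Agent.Helper2_MV Pool.Agent.MVO Pool.Agent.MWL Pool.Agent.MWS
open Pool.Agent.MWH

variable {n : ℕ}

theorem di5 (hTLM : MWHP.TlmnStmt) (hSWH : MWHP.SwhStmt) (hBJ5 : Bj5Stmt n) (hEDC : EdcStmt n)
    (hEL5 : El5Stmt n) (hEG5 : Eg5Stmt n) (hEK5 : Ek5Stmt n) : Di5Stmt n := by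
  intro β hβ
  exact hTLM n β hβ.toBaseH.toBasN (hSWH n β hβ.toBaseH)
    (hEDC β (hBJ5 β hβ).1 (hEL5 β hβ) (hEG5 β hβ) (hEK5 β hβ))

end Pool.Agent.MWHP.F.H36
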