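import Pool.Agent.Helper48_MWHP.H59_UGen

/-!
# MWH row UX3 (helper39)
-/

set_option autoImplicit false

namespace Pool.Agent.MWHP.F.H39

open Pool.Agent.Helper14_MV Pool.Agent.Helper2_MV Pool.Agent.MVO Pool.Agent.MWL Pool.Agent.MWS
open Pool.Agent.MWHP.F.H59


open Pool.Agent.MWH

variable {n : ℕ}

/-- from arbitrary types to a canonical word, states `yx`, `ov` -/
theorem fwd2 (hPSL : PslStmt n) {β θ : FIC} (hβ : BaseH n β) (hle : β ≤ θ) {k k0 : ℕ} {a b : ℕ → ℕ}
    (g : ℕ → ℕ) {la lb : List ℕ} {i i0 : ℕ} (hg : g i = i0) (hV : Vd k a b i)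
    (hm : BMap k k0 g) (hV0 : Vd k0 (vc la) (vc lb) i0) (hDa : Dm k k0 g a (vc la))
    (hDb : Dm k k0 g b (vc lb)) (hc : ∀ j ≤ k, g j = i0 → j ≠ i → a j = 0 ∧ (j < i ∨ b j = 0))
    (ha : a i = 1 ↔ vc la i0 = 1) (hb : 2 ≤ b i) (hb0 : 2 ≤ vc lb i0)
    (h : Tr θ k a b i Stt.yx Stt.ov) : Ce θ k0 la lb i0 Stt.yx Stt.ov := by
  subst hg
  exact hPSL β θ hβ hle k k0 g a b (vc la) (vc lb) i hm hV hV0 hDa hDb hc ha hb hb0 h

/-- from a canonical word to arbitrary types, states `yx`, `ov` -/
theorem bwd2 (hPIN : PinStmt n) {β θ : FIC} (hβ : BaseH n β) (hle : β ≤ θ) {k k0 : ℕ} {a b : ℕ → ℕ}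
    (f : ℕ → ℕ) {la lb : List ℕ} {i i0 : ℕ} (hf : f i0 = i) (hV : Vd k a b i)
    (hm : ∀ j < k0, f j < f (j + 1)) (hk : f k0 ≤ k) (hV0 : Vd k0 (vc la) (vc lb) i0)
    (hc : ∀ j ≤ k0, (vc la j ≠ 0 → a (f j) ≠ 0) ∧ (2 ≤ vc la j → 2 ≤ a (f j)) ∧
        (vc lb j ≠ 0 → b (f j) ≠ 0) ∧ (2 ≤ vc lb j → 2 ≤ b (f j)))
    (ha : vc la i0 = 1 ↔ a i = 1) (hb : vc lb i0 = 1 ↔ b i = 1) (hb0 : 2 ≤ vc lb i0)
    (h : Ce θ k0 la lb i0 Stt.yx Stt.ov) : Tr θ k a b i Stt.yx Stt.ov := by
  subst hf
  exact hPIN β θ hβ hle k0 k f (vc la) (vc lb) a b i0 hm hk hV0 hV hc ha hb Stt.yx Stt.ov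
    (by intro h; cases h) (fun _ => Or.inr hb0) h

theorem vd_ux3 : Vd 2 (vc [0, 1, 1]) (vc [1, 0, 2]) 2 := by
  refine ⟨by norm_num, by simp [vc], by simp [vc], ?_, by decide, by decide⟩
  intro j hj hj0
  interval_cases j <;> simp_all [vc]

theorem ux3 (hPSL : PslStmt n) (hPIN : PinStmt n) : Ux3Stmt n := by
  intro β θ hβ hle k a b i p hV hL hbi hq hbz
  obtain ⟨q, hqp, hbq, hb0⟩ := hq
  obtain ⟨hpi, hik, hap, hai, haz⟩ := hL
  have hbp : b p = 0 := by
    rcases hV.un p (by omega) (by omega) with h | h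
    · omega
    · exact h
  constructor
  · refine fwd2 hPSL hβ hle (fun j => if j < p then 0 else if j = p then 1 else 2)
      ?_ hV ?_ vd_ux3 ?_ ?_ ?_ ?_ hbi ?_
    · show (if i < p then 0 else if i = p then 1 else 2) = 2
      rw [if_neg (by omega), if_neg (by omega)]
    · constructor
      · intro x y hxy _
        split_ifs <;> omega
      · intro x _
        split_ifs <;> omega
    · intro j' hj'
      interval_cases j'
      · refine dm0 ?_
        intro j hj hg
        have hr : j < p := by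
          split_ifs at hg <;> omega
        exact haz j hj (by omega) (by omega)
      · refine dm1 rfl p hap.le ?_
        intro j hj hg hne
        have hr : j = p := by
          split_ifs at hg <;> omega
        exact absurd hr hne
      · refine dm1 rfl i hai.le ?_
        intro j hj hg hne
        have hr : p < j := by
          split_ifs at hg <;> omega
        exact haz j hj (by omega) hne
    · intro j' hj'
      interval_cases j'
      · refine dm1 rfl q hbq.le ?_
        intro j hj hg hne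
        have hr : j < p := by
          split_ifs at hg <;> omega
        exact hb0 j hr hne
      · refine dm0 ?_
        intro j hj hg
        have hr : j = p := by
          split_ifs at hg <;> omega
        rw [hr]
        exact hbp
      · exact dm2 (by simp [vc])
    · intro j hj hg hne
      have hr : p < j := by
        split_ifs at hg <;> omega
      refine ⟨haz j hj (by omega) hne, ?_⟩
      by_cases hji : j < i
      · exact Or.inl hji
      · exact Or.inr (hbz j (by omega) hj)
    · simp [vc, hai]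
    · simp [vc]
  · refine bwd2 hPIN hβ hle (fun j => if j = 0 then q else if j = 1 then p else i)
      ?_ hV ?_ ?_ vd_ux3 ?_ ?_ ?_ ?_
    · simp
    · intro j hj
      interval_cases j <;> simp <;> omega
    · simp
      omega
    · intro j hj
      interval_cases j <;> simp [vc] <;> omega
    · simp [vc, hai]
    · simp [vc]
      omega
    · simp [vc]

end Pool.Agent.MWHP.F.H39
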