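import Pool.Agent.MWHP.StmtsF
import Pool.Agent.MWS.StmtsA

/-!
Block MWH (MP_23468a_al), row HVJ: a heavy block before `i` makes `b` heavy in block `i`.
-/

set_option autoImplicit false

namespace Pool.Agent.MWHP.F.H46

open Pool.Agent.Helper14_MV Pool.Agent.Helper2_MV Pool.Agent.MVO Pool.Agent.MWL Pool.Agent.MWS
open Pool.Agent.MWH


open Pool.Agent.MWH

variable {n : ℕ}

theorem hvj (lrn : LrnStmt n) (hvp : HvpStmt) (abj : AbjStmt n) : HvjStmt n := by
  intro β hβ k a b i q hV hq h2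
  have hHv : Hv b i := ⟨hV.bi, q, hq, h2⟩
  have hAb := (hvp n (FC.ofFIC β) (lrn β β hβ.toBasN (fun _ _ h => h)) k b i hV.ik).1 hHv
  obtain ⟨hV2, hs⟩ := abj β β hβ (fun _ _ h => h) k a b i hV i hV.ik hAb (Or.inl rfl)
  refine ⟨hV2, fun θ hθ s s' h h' => ?_⟩
  have e1 : RR θ (asm k (W a b i s)) (asm k (W a (ad n b i) i s)) := hθ _ _ (hs s h)
  have e2 : RR θ (asm k (W a b i s')) (asm k (W a (ad n b i) i s')) := hθ _ _ (hs s' h')
  constructor
  · intro ht
    exact θ.trans (RR.symm e1) (θ.trans ht e2)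
  · intro ht
    exact θ.trans e1 (θ.trans ht (RR.symm e2))

end Pool.Agent.MWHP.F.H46
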