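import Pool.Agent.MWHP.StmtsF

/-!
# Row BJ4: the bit `J 3` in h4
-/

namespace Pool.Agent.MWHP.F.H51

open Pool.Agent.Helper14_MV Pool.Agent.Helper2_MV Pool.Agent.MVO Pool.Agent.MWL Pool.Agent.MWS
open Pool.Agent.MWH

variable {n : ℕ}

theorem mwa (n : ℕ) : mw 2 (ad n (Bit.J 3).a 2) = [0, 2, 0, 3] ++ List.replicate (n + 1) 0 ++
    List.replicate n 0 := by
  have e : (Bit.J 3).a 2 + 2 * n = (n + 1) + n := by
    show 1 + 2 * n = n + 1 + n
    omega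
  have : mw 2 (ad n (Bit.J 3).a 2) = [0, 2, 0, 3] ++ List.replicate ((Bit.J 3).a 2 + 2 * n) 0 := rfl
  rw [this, e, ← List.replicate_append_replicate]
  simp

/-- **BJ4** -/
theorem bj4 : Bj4Stmt n := by
  intro β hβ
  refine ⟨hβ.toS8, ?_⟩
  have h1 := hβ.j3
  have h2 := h1.append (RR.refl (List.replicate n 0))
  have e1 : mw 2 (Bit.J 3).a = [0, 2, 0, 3, 0] := by decide
  show RR β (mw 2 (Bit.J 3).a) (mw 2 (ad n (Bit.J 3).a 2))
  rw [e1, mwa]
  have e3 : [0, 2, 0, 3, 0] ++ List.replicate n 0 = [0, 2, 0, 3] ++ List.replicate (n + 1) 0 := by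
    rw [List.replicate_succ]; rfl
  rw [e3] at h2
  exact β.trans h1 h2

end Pool.Agent.MWHP.F.H51
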