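import Pool.Agent.Helper48_MWHP.H60_JTools

/-!
# MWH, row JX4
-/

set_option autoImplicit false

namespace Pool.Agent.MWHP.F.H60

open Pool.Agent.Helper14_MV Pool.Agent.Helper2_MV Pool.Agent.MVO Pool.Agent.MWL Pool.Agent.MWS
  Pool.Agent.MWH


open Pool.Agent.MWH

variable {n : ℕ}

theorem jx4 (h1 : JpcStmt n) (hbj : AbjStmt n) (hbo : AboStmt n) (hl : LhlStmt n) (hj2 : J2sStmt n) :
    Jx4Stmt n := by
  intro β hS
  have hn : 1 ≤ n := hS.pos
  have hV : Vd 3 (vc [0, 0, 1, 1]) (vc [1, 1, 0, 2]) 3 :=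
    ⟨by decide, by decide, by decide, by decide, by decide, by decide⟩
  have hL : LL2 3 (vc [0, 0, 1, 1]) 2 3 :=
    ⟨by decide, by decide, by decide, by decide, by decide⟩
  have hs : Vs (vc [0, 0, 1, 1]) (vc [1, 1, 0, 2]) 3 Stt.yx := fun h => by cases h
  have hs' : Vs (vc [0, 0, 1, 1]) (vc [1, 1, 0, 2]) 3 Stt.ov := fun _ => Or.inr (by decide)
  refine h1 β hS.toBaseH 3 _ _ 3 2 3 (fun j => j = 3) hV hL (by decide) Stt.yx Stt.ov
    (Or.inr (Or.inr ⟨rfl, rfl, rfl⟩)) ?_ ?_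
  · intro θ hle _ hJ
    exact hj2 β θ hS hle hJ _ _ _ _ _ _ hV hL (Or.inr (Or.inl (by decide))) _ _ hs hs'
  · intro θ hle _ j hj hF hab
    interval_cases j
    · refine abj_step hbj hS.toBaseH hle hV (by decide) hab (Or.inr (by decide)) hs hs' fun hV1 => ?_
      exact (hl β hS 3 _ _ 3 2 hV1 (by decide) (by first | decide | (simp [ad, vc] <;> omega)) (by decide) (by decide)).2.2
        ⟨0, by decide, by first | decide | (simp [ad, vc] <;> omega)⟩ _ _ (vs_ad hs) (vs_ad hs')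
    · refine abj_step hbj hS.toBaseH hle hV (by decide) hab (Or.inr (by decide)) hs hs' fun hV1 => ?_
      exact (hl β hS 3 _ _ 3 2 hV1 (by decide) (by first | decide | (simp [ad, vc] <;> omega)) (by decide) (by decide)).2.2
        ⟨1, by decide, by first | decide | (simp [ad, vc] <;> omega)⟩ _ _ (vs_ad hs) (vs_ad hs')
    · exact hbo β θ hS.toBaseH hle 3 _ _ 3 hV 2 (by decide) (by decide)
        (Or.inr ⟨by decide, hab⟩) _ _ hs hs'
    · exact absurd (by decide) hF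

end Pool.Agent.MWHP.F.H60
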