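import Pool.Agent.MWHP.StmtsF
import Pool.Agent.MWS.StmtsA

/-!
# MWH row TJP: the edges of h3 (MP_23468a_al)
-/

set_option autoImplicit false

namespace Pool.Agent.MWHP.F.H69T

open Pool.Agent.Helper14_MV Pool.Agent.Helper2_MV Pool.Agent.MVO Pool.Agent.MWL Pool.Agent.MWS
open Pool.Agent.MWH


open Pool.Agent.MWH

variable {n : ℕ}

theorem vs_xy (a b : ℕ → ℕ) (i : ℕ) : Vs a b i Stt.xy := fun h => by simp at h

theorem vs_yx (a b : ℕ → ℕ) (i : ℕ) : Vs a b i Stt.yx := fun h => by simp at h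

/-- absorption of the first letter gives the exchange -/
theorem main (hLRN : LrnStmt n) (hHVP : MWL.HvpStmt) (hSWT : SwtStmt n) (hABI : AbiStmt n)
    (hABO : AboStmt n) (hTLH : TlhStmt n) (hTLL : TllStmt n) {β θ : FIC} (hβ : H3 n β) (hθ : β ≤ θ)
    {k : ℕ} {a b : ℕ → ℕ} {i : ℕ} (hV : Vd k a b i) (ha : a i = 1) (hb : b i = 1) {j : ℕ}
    (hj : j ≤ k) (hab : Ab n (FC.ofFIC θ) k a j) : Tr θ k a b i Stt.xy Stt.yx := by
  have hB : BaseH n β := hβ.toBaseH
  have hn : 1 ≤ n := hβ.pos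
  by_cases hc : j = i ∨ b j = 0
  · obtain ⟨hV1, hA1⟩ := hABI β θ hB hθ k a b i hV j hj hab hc
    have e1 := hA1 Stt.xy (vs_xy a b i)
    have e2 := hA1 Stt.yx (vs_yx a b i)
    have key : Tr θ k (ad n a j) b i Stt.xy Stt.yx := by
      rcases lt_trichotomy j i with hji | hji | hji
      · -- j < i
        have haj : 2 ≤ ad n a j j := by
          unfold ad
          rw [if_pos rfl]
          omega
        have hHv : Hv (ad n a j) i := ⟨hV1.ai, j, by omega, haj⟩
        have hLR := hLRN β β hB.toBasN (fun _ _ h => h)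
        have hAb := (hHVP n (FC.ofFIC β) hLR k (ad n a j) i hV.ik).1 hHv
        obtain ⟨hV2, hA2⟩ := hABI β β hB (fun _ _ h => h) k (ad n a j) b i hV1 i hV.ik hAb (Or.inl rfl)
        have e3 := hA2 Stt.xy (vs_xy _ b i)
        have e4 := hA2 Stt.yx (vs_yx _ b i)
        have h2 : 2 ≤ ad n (ad n a j) i i := by
          have : ad n (ad n a j) i i = ad n a j i + 2 * n := by
            show ad n a j i + (if i = i then 2 * n else 0) = _
            rw [if_pos rfl]
          omega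
        have hVs := (hSWT β β hB (fun _ _ h => h) k _ b i hV2).1
        have hT := hTLH β hβ k b _ i hVs h2 Stt.yx Stt.xy (vs_yx _ _ i) (vs_xy _ _ i)
        have hT2 := ((hSWT β β hB (fun _ _ h => h) k b _ i hVs).2 Stt.yx Stt.xy (vs_yx _ _ i)
          (vs_xy _ _ i)).2.1 hT
        exact hθ _ _ (β.trans e3 (β.trans hT2 (RR.symm e4)))
      · -- j = i
        subst hji
        have h2 : 2 ≤ ad n a j j := by
          unfold ad
          rw [if_pos rfl]
          omega
        have hVs := (hSWT β β hB (fun _ _ h => h) k _ b j hV1).1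
        have hT := hTLH β hβ k b _ j hVs h2 Stt.yx Stt.xy (vs_yx _ _ j) (vs_xy _ _ j)
        have hT2 := ((hSWT β β hB (fun _ _ h => h) k b _ j hVs).2 Stt.yx Stt.xy (vs_yx _ _ j)
          (vs_xy _ _ j)).2.1 hT
        exact hθ _ _ hT2
      · -- i < j
        have haj : 2 ≤ ad n a j j := by
          unfold ad
          rw [if_pos rfl]
          omega
        have hai : ad n a j i = 1 := by
          unfold ad
          rw [if_neg (by omega), ha]
        have hVs := (hSWT β β hB (fun _ _ h => h) k _ b i hV1).1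
        have hT := hTLL β hβ k b _ i j hVs hb hai hji hj haj Stt.yx Stt.xy (vs_yx _ _ i)
          (vs_xy _ _ i)
        have hT2 := ((hSWT β β hB (fun _ _ h => h) k b _ i hVs).2 Stt.yx Stt.xy (vs_yx _ _ i)
          (vs_xy _ _ i)).2.1 hT
        exact hθ _ _ hT2
    exact θ.trans e1 (θ.trans key (RR.symm e2))
  · rw [not_or] at hc
    exact hABO β θ hB hθ k a b i hV j hj hc.1 (Or.inl ⟨hc.2, hab⟩) Stt.xy Stt.yx (vs_xy a b i)
      (vs_yx a b i)

theorem tjp (hLRN : LrnStmt n) (hHVP : MWL.HvpStmt) (hSWT : SwtStmt n) (hJPX : JpxStmt n)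
    (hABI : AbiStmt n) (_hABJ : AbjStmt n) (hABO : AboStmt n) (hTLH : TlhStmt n) (hTLL : TllStmt n) :
    TjpStmt n := by
  intro β hβ k a b i hV ha hb
  have hB : BaseH n β := hβ.toBaseH
  have hai : a i = 1 := by
    have h1 := hV.ai
    have h2 := ha i hV.ik
    omega
  have hbi : b i = 1 := by
    have h1 := hV.bi
    have h2 := hb i hV.ik
    omega
  refine hJPX β hB k a b i (fun _ => False) hV (fun _ _ h => h.elim) Stt.xy Stt.yx
    (Or.inl ⟨hai, hbi, rfl, rfl⟩) ?_
  intro θ hθ _ hnT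
  refine ⟨?_, ?_⟩
  · intro j hj hab
    exact hnT (main hLRN hHVP hSWT hABI hABO hTLH hTLL hβ hθ hV hai hbi hj hab)
  · intro j hj _ hab
    obtain ⟨hVs, hT⟩ := hSWT β θ hB hθ k a b i hV
    have h1 := main hLRN hHVP hSWT hABI hABO hTLH hTLL hβ hθ hVs hbi hai hj hab
    have h2 := (hT Stt.yx Stt.xy (vs_yx _ _ i) (vs_xy _ _ i)).2.2 h1
    exact hnT (RR.symm h2)

end Pool.Agent.MWHP.F.H69T
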