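import Pool.Agent.MWHP.StmtsF
import Pool.Agent.MWHP.StmtsF

/-!
# Squad MWH, row PIN: push with a strictly increasing map
-/

set_option autoImplicit false

namespace Pool.Agent.MWHP.F.H6

open Pool.Agent.Helper14_MV Pool.Agent.Helper2_MV Pool.Agent.MVO Pool.Agent.MWL Pool.Agent.MWS
  Pool.Agent.MWH


open Pool.Agent.MWH

variable {n : ℕ}

theorem strict (k0 : ℕ) (f : ℕ → ℕ) (hf : ∀ j < k0, f j < f (j + 1)) :
    ∀ j ≤ k0, ∀ i < j, f i < f j := by
  intro j
  induction j with
  | zero => intro _ i hi; omega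
  | succ j ih =>
    intro hj i hi
    have h1 := hf j (by omega)
    rcases Nat.lt_succ_iff_lt_or_eq.1 hi with h | h
    · exact lt_trans (ih (by omega) i h) h1
    · rw [h]; exact h1

theorem dm_of (k0 k : ℕ) (f a0 a : ℕ → ℕ) (hinj : ∀ i ≤ k0, ∀ j ≤ k0, f i = f j → i = j)
    (h : ∀ j ≤ k0, (a0 j ≠ 0 → a (f j) ≠ 0) ∧ (2 ≤ a0 j → 2 ≤ a (f j))) : Dm k0 k f a0 a := by
  intro j' _
  by_cases h2 : 2 ≤ a j'
  · exact Or.inl h2
  right
  by_cases h1 : a j' = 1
  · by_cases hv : ∃ j0 ≤ k0, f j0 = j'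
    · obtain ⟨j0, hj0, rfl⟩ := hv
      left
      refine ⟨h1, j0, ?_, ?_⟩
      · by_contra hc
        exact h2 ((h j0 hj0).2 (by omega))
      · intro j hj hfj hne
        exact absurd (hinj j hj j0 hj0 hfj) hne
    · right
      intro j hj hfj
      exact absurd ⟨j, hj, hfj⟩ hv
  · right
    intro j hj hfj
    by_contra hc
    have := (h j hj).1 hc
    rw [hfj] at this
    omega

theorem pin (hps : Ps0Stmt n) : PinStmt n := by
  intro β θ hβ hle k0 k f a0 b0 a b i0 hf hk hV0 hV hall ha hb s s' hs hs' hT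
  have hst := strict k0 f hf
  have hinj : ∀ i ≤ k0, ∀ j ≤ k0, f i = f j → i = j := by
    intro i hi j hj hij
    rcases lt_trichotomy i j with h | h | h
    · exact absurd hij (ne_of_lt (hst j hj i h))
    · exact h
    · exact absurd hij.symm (ne_of_lt (hst i hi j h))
  have hmap : BMap k0 k f := by
    constructor
    · intro i j hij hj
      rcases Nat.lt_or_eq_of_le hij with h | h
      · exact le_of_lt (hst j hj i h)
      · rw [h]
    · intro i hi
      rcases Nat.lt_or_eq_of_le hi with h | h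
      · exact le_trans (le_of_lt (hst k0 le_rfl i h)) hk
      · rw [h]; exact hk
  refine hps β θ hβ hle k0 k f a0 b0 a b i0 hmap hV0 hV
    (dm_of k0 k f a0 a hinj fun j hj => ⟨(hall j hj).1, (hall j hj).2.1⟩)
    (dm_of k0 k f b0 b hinj fun j hj => ⟨(hall j hj).2.2.1, (hall j hj).2.2.2⟩)
    ?_ ha hb s s' hs hs' hT
  intro j hj hfj hne
  exact absurd (hinj j hj i0 hV0.ik hfj) hne

end Pool.Agent.MWHP.F.H6
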