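import Pool.Agent.MWHP.StmtsF

/-!
# Squad MWHP, row DI4
-/

set_option autoImplicit false

namespace Pool.Agent.MWHP.F.H70

open Pool.Agent.Helper14_MV Pool.Agent.Helper2_MV Pool.Agent.MVO Pool.Agent.MWL Pool.Agent.MWS
open Pool.Agent.MWH

variable {n : ℕ}

theorem di4 (hT : MWHP.TlmnStmt) (hS : MWHP.SwhStmt) (hB : Bj4Stmt n) (hE : EdcStmt n)
    (hL : El4Stmt n) (hG : Eg4Stmt n) (hK : Ek4Stmt n) : Di4Stmt n := fun β h =>
  hT n β h.toS8.toBaseH.toBasN (hS n β h.toS8.toBaseH)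
    (hE β (hB β h) (hL β h) (hG β h) (hK β h))

end Pool.Agent.MWHP.F.H70
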