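import Pool.Agent.MWHP.StmtsF
import Pool.Agent.MWS.StmtsA

/-!
# Row EL4 of MWH: the edges of a light letter of degree two with a heavy letter in h4
-/

set_option autoImplicit false

namespace Pool.Agent.MWHP.F.H75

open Pool.Agent.Helper14_MV Pool.Agent.Helper2_MV Pool.Agent.MVO Pool.Agent.MWL Pool.Agent.MWS
open Pool.Agent.MWH


open Pool.Agent.MWH

variable {n : ℕ}

theorem eg_nil {β : FIC} {k : ℕ} {a b : ℕ → ℕ} {i : ℕ} {s s' : Stt} (h : Tr β k a b i s s') :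
    Eg β k a b i s s' :=
  ⟨[], fun _ he => absurd he List.not_mem_nil,
    fun _ hle _ => ⟨fun _ _ he => absurd he List.not_mem_nil, fun _ => hle _ _ h⟩⟩

theorem eg_one {β : FIC} {k : ℕ} {a b : ℕ → ℕ} {i : ℕ} {s s' : Stt} {e : List ℕ × List ℕ}
    (hj : JPp β e) (h : ∀ θ : FIC, β ≤ θ → (Tr θ k a b i s s' ↔ RR θ e.1 e.2)) :
    Eg β k a b i s s' := by
  refine ⟨[e], fun e' he => ?_, fun θ hle _ => ⟨fun ht e' he => ?_, fun ht => ?_⟩⟩
  · rw [List.mem_singleton] at he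
    rw [he]; exact hj
  · rw [List.mem_singleton] at he
    rw [he]; exact (h θ hle).1 ht
  · exact (h θ hle).2 (ht e (List.mem_singleton.2 rfl))

theorem lb_two {b : ℕ → ℕ} {q q' j : ℕ} (h1 : q < q') (h2 : q' < j) (hq : b q ≠ 0)
    (hq' : b q' ≠ 0) : 2 ≤ lb b j := by
  unfold lb
  have h3 : ({q, q'} : Finset ℕ) ⊆ (Finset.range j).filter (fun j => b j ≠ 0) := by
    intro x hx
    rw [Finset.mem_insert, Finset.mem_singleton] at hx
    rw [Finset.mem_filter, Finset.mem_range]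
    rcases hx with h | h
    · rw [h]; exact ⟨by omega, hq⟩
    · rw [h]; exact ⟨h2, hq'⟩
  have h4 := Finset.card_le_card h3
  rw [Finset.card_pair (by omega)] at h4
  exact h4

/-- **EL4** -/
theorem el4 (hL : LrnStmt n) (h4 : Lt4Stmt n) (hB : Bj4Stmt n) (hH : LhlStmt n)
    (x2 : Ux2Stmt n) (x3 : Ux3Stmt n) (x4 : Ux4Stmt n) (j2 : Jx2Stmt n) (j3 : Jx3Stmt n) (j4 : Jx4Stmt n) :
    El4Stmt n := by
  intro β hβ k a b i p hv hn hll hbi
  have hb8 : BaseH n β := hβ.toS8.toBaseH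
  have hJ := (hB β hβ).2
  have hLR : LR n (FC.ofFIC β) := hL β β hb8.toBasN (fun _ _ h => h)
  obtain ⟨l1, l2, l3⟩ := hH β hβ.toS8 k a b i p hv hll.av hbi hll.uv (by rw [hll.au]; decide)
  have vyx : Vs a b i Stt.yx := fun h => absurd h (by decide)
  have vov : Vs a b i Stt.ov := fun _ => Or.inr hbi
  refine ⟨eg_nil l1, ?_⟩
  have hlt := fun j hj hbj => h4 _ hLR k b hn hv.db j hj hbj
  by_cases hm : ∃ m, i < m ∧ m ≤ k ∧ b m ≠ 0
  · obtain ⟨m, hm1, hm2, hm3⟩ := hm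
    exact eg_nil (l2 ⟨m, hm1, hm2, (hlt m hm2 hm3).1 ⟨i, hm1.le, hbi⟩⟩ _ _ vyx vov)
  by_cases hq : ∃ q, q < p ∧ 2 ≤ b q
  · exact eg_nil (l3 hq _ _ vyx vov)
  have hr : ∀ j, i < j → j ≤ k → b j = 0 := by
    intro j hj1 hj2
    by_contra h
    exact hm ⟨j, hj1, hj2, h⟩
  have hl : ∀ j < p, b j ≤ 1 := by
    intro j hj
    by_contra h
    exact hq ⟨j, hj, by omega⟩
  have hpi : p < i := hll.uv
  have hik : i ≤ k := hv.ik
  by_cases c0 : ∀ j < p, b j = 0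
  · exact eg_one (j2 β hβ.toS8) (fun θ hle => x2 β θ hb8 hle k a b i p hv hll hbi c0 hr)
  have e0 : ∃ q, q < p ∧ b q ≠ 0 := by
    by_contra h
    apply c0
    intro j hj
    by_contra h'
    exact h ⟨j, hj, h'⟩
  classical
  obtain ⟨q, ⟨hq1, hq2⟩, hq3⟩ : ∃ q, (q < p ∧ b q ≠ 0) ∧ ∀ j, j < q → ¬ (j < p ∧ b j ≠ 0) :=
    ⟨Nat.find e0, Nat.find_spec e0, fun j hj => Nat.find_min e0 hj⟩
  have hbq : b q = 1 := by
    have := hl q hq1
    omega
  by_cases c1 : ∀ j < p, j ≠ q → b j = 0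
  · exact eg_one (j3 β hβ.toS8)
      (fun θ hle => x3 β θ hb8 hle k a b i p hv hll hbi ⟨q, hq1, hbq, c1⟩ hr)
  have e1 : ∃ j, j < p ∧ j ≠ q ∧ b j ≠ 0 := by
    by_contra h
    apply c1
    intro j hj hjq
    by_contra h'
    exact h ⟨j, hj, hjq, h'⟩
  obtain ⟨r, ⟨hr1, hr2, hr3⟩, hr4⟩ :
      ∃ r, (r < p ∧ r ≠ q ∧ b r ≠ 0) ∧ ∀ j, j < r → ¬ (j < p ∧ j ≠ q ∧ b j ≠ 0) :=
    ⟨Nat.find e1, Nat.find_spec e1, fun j hj => Nat.find_min e1 hj⟩
  have hqr : q < r := by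
    rcases Nat.lt_trichotomy q r with h | h | h
    · exact h
    · exact absurd h.symm hr2
    · exact absurd ⟨hr1, hr3⟩ (hq3 r h)
  have hbr : b r = 1 := by
    have := hl r hr1
    omega
  refine eg_one (j4 β hβ.toS8)
    (fun θ hle => x4 β θ hb8 hle k a b i p hv hll hbi ⟨q, r, hqr, hr1, hbq, hbr, ?_⟩ hr)
  intro j hj hjq hjr
  by_contra hbj
  have hrj : r < j := by
    rcases Nat.lt_trichotomy r j with h | h | h
    · exact h
    · exact absurd h.symm hjr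
    · exact absurd ⟨hj, hjq, hbj⟩ (hr4 j h)
  have h5 := (hlt j (by omega) hbj).2.1 hJ (lb_two hqr hrj hq2 hr3)
  have h6 := hl j hj
  omega

end Pool.Agent.MWHP.F.H75
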