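import Pool.Agent.MWHP.StmtsF
import Pool.Agent.MWS.StmtsA

/-! Squad MWH, row EG4 (helper76) -/

set_option autoImplicit false

namespace Pool.Agent.MWHP.F.H76

open Pool.Agent.Helper14_MV Pool.Agent.Helper2_MV Pool.Agent.MVO Pool.Agent.MWL Pool.Agent.MWS


open Pool.Agent.MWH

variable {n : ℕ}

theorem lb_two {b : ℕ → ℕ} {j1 j2 j : ℕ} (h12 : j1 < j2) (h2 : j2 < j) (b1 : b j1 ≠ 0)
    (b2 : b j2 ≠ 0) : 2 ≤ lb b j := by
  have hsub : ({j1, j2} : Finset ℕ) ⊆ (Finset.range j).filter (fun j => b j ≠ 0) := by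
    intro x hx
    rw [Finset.mem_insert, Finset.mem_singleton] at hx
    rw [Finset.mem_filter, Finset.mem_range]
    rcases hx with rfl | rfl
    · exact ⟨by omega, b1⟩
    · exact ⟨h2, b2⟩
  have hc := Finset.card_le_card hsub
  rw [Finset.card_pair (by omega)] at hc
  exact hc

theorem eg_nil {β : FIC} {k : ℕ} {a b : ℕ → ℕ} {i : ℕ} (h : TrA β k a b i) :
    Eg β k a b i Stt.xy Stt.yx := by
  have h1 : Tr β k a b i Stt.xy Stt.yx :=
    h Stt.xy Stt.yx (fun e => nomatch e) (fun e => nomatch e)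
  refine ⟨[], fun e he => absurd he List.not_mem_nil, fun θ hθ _ => ⟨fun _ e he =>
    absurd he List.not_mem_nil, fun _ => hθ _ _ h1⟩⟩

theorem eg_one {β : FIC} {k : ℕ} {a b : ℕ → ℕ} {i : ℕ} {k' i' : ℕ} {la lb : List ℕ}
    (hj : JPp β (ce k' la lb i' Stt.xy Stt.yx))
    (h : ∀ θ : FIC, β ≤ θ →
      (Tr θ k a b i Stt.xy Stt.yx ↔ Ce θ k' la lb i' Stt.xy Stt.yx)) :
    Eg β k a b i Stt.xy Stt.yx := by
  refine ⟨[ce k' la lb i' Stt.xy Stt.yx], fun e he => ?_, fun θ hθ _ => ?_⟩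
  · rw [List.mem_singleton] at he
    rw [he]
    exact hj
  · rw [h θ hθ]
    constructor
    · intro h1 e he
      rw [List.mem_singleton] at he
      rw [he]
      exact h1
    · intro h1
      exact h1 _ (List.mem_singleton.2 rfl)

theorem eg4 (lrn : LrnStmt n) (lt3 : Lt3Stmt n) (lt4 : Lt4Stmt n) (bj4 : Bj4Stmt n) (kk9 : Kk9Stmt n)
    (u10 : U10Stmt n) (u01 : U01Stmt n) (u1l : U1lStmt n) (v10 : V10Stmt n) (v01 : V01Stmt n)
    (j10 : J10Stmt n) (j01 : J01Stmt n) (j1l : J1lStmt n) (k10 : K10Stmt n) (k01 : K01Stmt n) :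
    Eg4Stmt n := by
  intro β h4 k a b i p vd nrm ll hb bi
  have hS8 : S8 n β := h4.toS8
  have hBH : BaseH n β := hS8.toBaseH
  have hle : β ≤ β := fun _ _ h => h
  have hlr : LR n (FC.ofFIC β) := lrn β β hBH.toBasN hle
  have hj3 : Has n (FC.ofFIC β) (Bit.J 3) := (bj4 β h4).2
  have hik := vd.ik
  have hip := ll.uv
  have hpk := ll.vk
  have hap : a p ≠ 0 := by rw [ll.av]; exact one_ne_zero
  have hbp : b p = 0 := (vd.un p hpk (by omega)).resolve_left hap
  have L1' : ∀ j ≤ k, b j ≠ 0 → (∃ p ≤ j, 2 ≤ b p) → 2 ≤ b j := fun j hj hbj =>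
    (lt4 _ hlr k b nrm vd.db j hj hbj).1
  have L2' : ∀ j ≤ k, b j ≠ 0 → ∀ j1 j2, j1 < j2 → j2 < j → b j1 ≠ 0 → b j2 ≠ 0 → 2 ≤ b j :=
    fun j hj hbj j1 j2 h12 h2 b1 b2 =>
      (lt4 _ hlr k b nrm vd.db j hj hbj).2.1 hj3 (lb_two h12 h2 b1 b2)
  obtain ⟨m0, hm1, hm2, hm3⟩ := lt3 _ hlr hj3 k b nrm vd.db hb i hik bi
  have hm0p : m0 ≠ p := by
    intro e
    rw [e] at hm3
    omega
  have hpre : ∀ j < i, b j ≤ 1 := by
    intro j hj
    by_contra hc
    have := L1' i hik vd.bi ⟨j, hj.le, by omega⟩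
    omega
  by_cases hA : ∀ j < i, b j = 0
  · by_cases hA1 : ∀ j, p < j → j ≤ k → b j = 0
    · have hmp : m0 < p := by
        by_contra hc
        have := hA1 m0 (by omega) hm2
        omega
      exact eg_one (j10 β hS8) fun θ hθ =>
        u10 β θ hBH hθ k a b i p vd ll bi hA ⟨m0, hm1, hmp, hm3⟩ hA1
    · push Not at hA1
      obtain ⟨z, hz1, hz2, hz3⟩ := hA1
      by_cases hA2 : ∀ j, i < j → j < p → b j = 0
      · have hmp : p < m0 := by
          by_contra hc
          have := hA2 m0 hm1 (by omega)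
          omega
        exact eg_one (j01 β hS8) fun θ hθ =>
          u01 β θ hBH hθ k a b i p vd ll bi hA hA2 ⟨m0, hmp, hm2, hm3⟩
      · push Not at hA2
        obtain ⟨m, hm4, hm5, hm6⟩ := hA2
        have hz4 : 2 ≤ b z := L2' z hz2 hz3 i m hm4 (by omega) vd.bi hm6
        by_cases hH : ∃ m', i < m' ∧ m' < p ∧ 2 ≤ b m'
        · obtain ⟨m', h1, h2, h3⟩ := hH
          exact eg_nil (kk9 β h4 k a b i m' p z vd ll.au bi h1 h2 hz1 hz2 h3 hap hz4)
        · push Not at hH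
          have hbm : b m = 1 := by
            have := hH m hm4 hm5
            omega
          have hun : ∀ j, i < j → j < p → j ≠ m → b j = 0 := by
            intro j h1 h2 h3
            by_contra hc
            rcases lt_or_gt_of_ne h3 with h | h
            · have := L2' m (by omega) hm6 i j h1 h vd.bi hc
              omega
            · have := L2' j (by omega) hc i m hm4 h vd.bi hm6
              have := hH j h1 h2
              omega
          exact eg_one (j1l β h4) fun θ hθ =>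
            u1l β θ hBH hθ k a b i p vd ll bi hA ⟨m, hm4, hm5, hbm, hun⟩ ⟨z, hz1, hz2, hz4⟩
  · push Not at hA
    obtain ⟨q, hq1, hq2⟩ := hA
    have hbq : b q = 1 := by
      have := hpre q hq1
      omega
    have hunq : ∀ j < i, j ≠ q → b j = 0 := by
      intro j h1 h2
      by_contra hc
      rcases lt_or_gt_of_ne h2 with h | h
      · have := L2' i hik vd.bi j q h hq1 hc hq2
        omega
      · have := L2' i hik vd.bi q j h h1 hq2 hc
        omega
    have hpost : ∀ j, i < j → j ≤ k → b j ≠ 0 → 2 ≤ b j := fun j h1 h2 h3 =>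
      L2' j h2 h3 q i hq1 h1 hq2 vd.bi
    by_cases hB1 : ∀ j, p < j → j ≤ k → b j = 0
    · have hmp : m0 < p := by
        by_contra hc
        have := hB1 m0 (by omega) hm2
        omega
      exact eg_one (k10 β hS8) fun θ hθ =>
        v10 β θ hBH hθ k a b i p vd ll bi ⟨q, hq1, hbq, hunq⟩ ⟨m0, hm1, hmp, hm3⟩ hB1
    · push Not at hB1
      obtain ⟨z, hz1, hz2, hz3⟩ := hB1
      have hz4 : 2 ≤ b z := hpost z (by omega) hz2 hz3
      by_cases hB2 : ∀ j, i < j → j < p → b j = 0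
      · exact eg_one (k01 β hS8) fun θ hθ =>
          v01 β θ hBH hθ k a b i p vd ll bi ⟨q, hq1, hbq, hunq⟩ hB2 ⟨z, hz1, hz2, hz4⟩
      · push Not at hB2
        obtain ⟨m, hm4, hm5, hm6⟩ := hB2
        exact eg_nil (kk9 β h4 k a b i m p z vd ll.au bi hm4 hm5 hz1 hz2
          (hpost m hm4 (by omega) hm6) hap hz4)

end Pool.Agent.MWHP.F.H76
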