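import Pool.Agent.MWHP.StmtsF

/-!
# Block MWHP, row TDI: the lattice above the system h3 is distributive
-/

set_option autoImplicit false

namespace Pool.Agent.MWHP.F.H7

open Pool.Agent.Helper14_MV Pool.Agent.Helper2_MV Pool.Agent.MVO Pool.Agent.MWL Pool.Agent.MWS
  Pool.Agent.MWH

variable {n : ℕ}

/-- **TDI**. -/
theorem tdi (tlm : MWHP.TlmnStmt) (swh : MWHP.SwhStmt) (tep : TepStmt n) : TdiStmt n :=
  fun β h => tlm n β h.toBaseH.toBasN (swh n β h.toBaseH) (tep β h)

end Pool.Agent.MWHP.F.H7
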