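import Pool.Agent.MWHP.StmtsF
import Pool.Agent.MWS.StmtsA

/-!
# Block MWH, row EG5
-/

set_option autoImplicit false

namespace Pool.Agent.MWHP.F.H89

open Pool.Agent.Helper14_MV Pool.Agent.Helper2_MV Pool.Agent.MVO Pool.Agent.MWL Pool.Agent.MWS


open Pool.Agent.MWH

variable {n : ℕ}

theorem lb_pos {b : ℕ → ℕ} {t j : ℕ} (h : t < j) (hb : b t ≠ 0) : 1 ≤ lb b j :=
  Finset.card_pos.2 ⟨t, Finset.mem_filter.2 ⟨Finset.mem_range.2 h, hb⟩⟩

/-- one canonical edge describes the transition -/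
theorem eg_of {β : FIC} {k : ℕ} {a b : ℕ → ℕ} {i : ℕ} {s s' : Stt} {k0 : ℕ} {la lb : List ℕ}
    {i0 : ℕ} {t t' : Stt} (hj : JPp β (ce k0 la lb i0 t t'))
    (h : ∀ θ : FIC, β ≤ θ → (Tr θ k a b i s s' ↔ Ce θ k0 la lb i0 t t')) : Eg β k a b i s s' := by
  refine ⟨[ce k0 la lb i0 t t'], ?_, ?_⟩
  · intro e he
    rw [List.mem_singleton] at he
    rw [he]
    exact hj
  · intro θ hle _
    rw [h θ hle]
    constructor
    · intro h1 e he
      rw [List.mem_singleton] at he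
      rw [he]
      exact h1
    · intro h1
      exact h1 _ (List.mem_singleton.2 rfl)

theorem eg5 (hlrn : LrnStmt n) (h3 : Lt3Stmt n) (h4 : Lt4Stmt n) (hbj : Bj5Stmt n) (u10 : U10Stmt n)
    (u01 : U01Stmt n) (u11 : U11Stmt n) (j10 : J10Stmt n) (j01 : J01Stmt n) (j11 : J11Stmt n) : Eg5Stmt n := by
  intro β hβ k a b i p hv hN hL hnb hb
  obtain ⟨⟨hS8, hJ3⟩, hD1⟩ := hbj β hβ
  have hLR : LR n (FC.ofFIC β) := hlrn β β hS8.toBaseH.toBasN (fun _ _ h => h)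
  obtain ⟨m, hm1, hm2, hm3⟩ := h3 (FC.ofFIC β) hLR hJ3 k b hN hv.db hnb i hv.ik hb
  have h4' : ∀ j ≤ k, b j ≠ 0 → 1 ≤ lb b j → 2 ≤ b j := fun j hj hbj hl =>
    (h4 (FC.ofFIC β) hLR k b hN hv.db j hj hbj).2.2 hJ3 hD1 hnb hl
  have hz : ∀ j < i, b j = 0 := by
    intro j hj
    by_contra h
    have := h4' i hv.ik (by rw [hb]; exact one_ne_zero) (lb_pos hj h)
    omega
  have hh : ∀ j, i < j → j ≤ k → b j ≠ 0 → 2 ≤ b j := fun j hj hk h =>
    h4' j hk h (lb_pos hj (by rw [hb]; exact one_ne_zero))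
  have hip := hL.uv
  have hbp : b p = 0 := by
    rcases hv.un p hL.vk (by omega) with h | h
    · rw [hL.av] at h
      exact absurd h one_ne_zero
    · exact h
  have hBH := hS8.toBaseH
  by_cases h1 : ∀ j, p < j → j ≤ k → b j = 0
  · have hmp : m < p := by
      rcases lt_trichotomy m p with h | h | h
      · exact h
      · rw [h, hbp] at hm3
        omega
      · rw [h1 m h hm2] at hm3
        omega
    exact eg_of (j10 β hS8) fun θ hle =>
      u10 β θ hBH hle k a b i p hv hL hb hz ⟨m, hm1, hmp, hm3⟩ h1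
  · push Not at h1
    obtain ⟨z, hz1, hz2, hz3⟩ := h1
    have hz4 := hh z (by omega) hz2 hz3
    by_cases h2 : ∀ j, i < j → j < p → b j = 0
    · exact eg_of (j01 β hS8) fun θ hle =>
        u01 β θ hBH hle k a b i p hv hL hb hz h2 ⟨z, hz1, hz2, hz4⟩
    · push Not at h2
      obtain ⟨n, hn1, hn2, hn3⟩ := h2
      have hn4 := hh n hn1 (by have := hL.vk; omega) hn3
      exact eg_of (j11 β hS8) fun θ hle =>
        u11 β θ hBH hle k a b i p hv hL hb hz ⟨n, hn1, hn2, hn4⟩ ⟨z, hz1, hz2, hz4⟩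

end Pool.Agent.MWHP.F.H89
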