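import Pool.Agent.MWHP.StmtsF
import Pool.Agent.MWS.StmtsA

/-!
# MWH EK4: the edges `xy - yx` of two light letters in h4, case of the light letter of degree two
whose second block is the common block (row of squad MWH, MP_23468a_al)
-/

namespace Pool.Agent.MWHP.F.H94

open Pool.Agent.Helper14_MV Pool.Agent.Helper2_MV Pool.Agent.MVO Pool.Agent.MWL Pool.Agent.MWS
open Pool.Agent.MWH


open Pool.Agent.MWH

variable {n : ℕ}

theorem ek4 (lrn : LrnStmt n) (lt3 : Lt3Stmt n) (lt4 : Lt4Stmt n) (bj4 : Bj4Stmt n) (uev : UevStmt n)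
    (vp1 : Vp1Stmt n) (vp2 : Vp2Stmt n) (jev : JevStmt n) (kp1 : Kp1Stmt n) (kp2 : Kp2Stmt n) : Ek4Stmt n := by
  intro β h4 k a b i p hv hn hl hnl hb1
  have hJ : Has n (FC.ofFIC β) (Bit.J 3) := (bj4 β h4).2
  have hS : S8 n β := h4.toS8
  have hB : BaseH n β := hS.toBaseH
  have hLR : LR n (FC.ofFIC β) := lrn β β hB.toBasN (fun _ _ h => h)
  have hik : i ≤ k := hv.ik
  obtain ⟨m, him, hmk, hbm⟩ := lt3 _ hLR hJ k b hn hv.db hnl i hik hb1
  have hLi := lt4 _ hLR k b hn hv.db i hik hv.bi
  have hle : ∀ j < i, b j ≤ 1 := by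
    intro j hj
    by_contra hc
    have h2 : 2 ≤ b i := hLi.1 ⟨j, hj.le, by omega⟩
    omega
  have hlb : lb b i ≤ 1 := by
    by_contra hc
    have h2 : 2 ≤ b i := hLi.2.1 hJ (by omega)
    omega
  by_cases hz : ∀ j < i, b j = 0
  · refine ⟨[ce 2 [1, 1, 0] [0, 1, 2] 1 Stt.xy Stt.yx], ?_, ?_⟩
    · intro e he
      rw [List.mem_singleton] at he
      rw [he]
      exact jev β hS
    · intro θ hθ _
      have h := uev β θ hB hθ k a b i p hv hl hb1 hz ⟨m, him, hmk, hbm⟩
      rw [h]
      simp only [List.mem_singleton, forall_eq]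
      exact Iff.rfl
  · push Not at hz
    obtain ⟨q, hqi, hq0⟩ := hz
    have hq1 : b q = 1 := by
      have := hle q hqi
      omega
    have huniq : ∀ j < i, j ≠ q → b j = 0 := by
      intro j hj hjq
      by_contra hc
      have hsub : ({j, q} : Finset ℕ) ⊆ (Finset.range i).filter (fun j => b j ≠ 0) := by
        intro x hx
        rw [Finset.mem_insert, Finset.mem_singleton] at hx
        rw [Finset.mem_filter, Finset.mem_range]
        rcases hx with rfl | rfl
        · exact ⟨hj, hc⟩
        · exact ⟨hqi, hq0⟩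
      have hcard := Finset.card_le_card hsub
      rw [Finset.card_pair hjq] at hcard
      have : 2 ≤ lb b i := hcard
      omega
    have hqp : q ≠ p := by
      intro e
      have := hv.un q (by omega) (by omega)
      rcases this with h | h
      · rw [e, hl.au] at h; omega
      · exact hq0 h
    rcases Nat.lt_or_gt_of_ne hqp with hlt | hgt
    · refine ⟨[ce 3 [0, 1, 1, 0] [1, 0, 1, 2] 2 Stt.xy Stt.yx], ?_, ?_⟩
      · intro e he
        rw [List.mem_singleton] at he
        rw [he]
        exact kp2 β hS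
      · intro θ hθ _
        have h := vp2 β θ hB hθ k a b i p hv hl hb1 ⟨q, hlt, hq1, huniq⟩ ⟨m, him, hmk, hbm⟩
        rw [h]
        simp only [List.mem_singleton, forall_eq]
        exact Iff.rfl
    · refine ⟨[ce 3 [1, 0, 1, 0] [0, 1, 1, 2] 2 Stt.xy Stt.yx], ?_, ?_⟩
      · intro e he
        rw [List.mem_singleton] at he
        rw [he]
        exact kp1 β hS
      · intro θ hθ _
        have h := vp1 β θ hB hθ k a b i p hv hl hb1 ⟨q, hgt, hqi, hq1, huniq⟩ ⟨m, him, hmk, hbm⟩
        rw [h]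
        simp only [List.mem_singleton, forall_eq]
        exact Iff.rfl

end Pool.Agent.MWHP.F.H94
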