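import Pool.Agent.MWHP.StmtsF
import Pool.Agent.MWS.StmtsA
import Pool.Agent.MWL.Stmts

namespace Pool.Agent.MWHP.F.H9

open Pool.Agent.Helper14_MV Pool.Agent.Helper2_MV Pool.Agent.MVO Pool.Agent.MWL Pool.Agent.MWS
open Pool.Agent.MWH


open Pool.Agent.MWH

variable {n : ℕ}

theorem eg_nil {β : FIC} {k : ℕ} {a b : ℕ → ℕ} {i : ℕ} {s s' : Stt} (h : Tr β k a b i s s') :
    Eg β k a b i s s' :=
  ⟨[], by simp, fun _ hle _ => ⟨fun _ => by simp, fun _ => hle _ _ h⟩⟩

theorem tep (h1 : LrnStmt n) (h2 : MWL.HvpStmt) (h3 : SwtStmt n) (h4 : EdvStmt n) (h5 : TlhStmt n)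
    (h6 : TllStmt n) (h7 : TjpStmt n) : TepStmt n := by
  intro β hβ
  have hB : BaseH n β := hβ.toBaseH
  have hLR : LR n (FC.ofFIC β) := h1 β β hB.toBasN (fun _ _ h => h)
  refine h4 β hB fun k a b i hv hna hnb => ⟨fun hai hbi => ?_, fun hb => ?_⟩
  · by_cases hm : ∃ m ≤ k, 2 ≤ b m
    · obtain ⟨m, hmk, hm⟩ := hm
      have him : i < m := by
        by_contra hc
        have hab := (h2 n _ hLR k b i hv.ik).1 ⟨hv.bi, m, by omega, hm⟩
        have := hnb i hv.ik hv.bi hab
        omega
      exact eg_nil (h6 β hβ k a b i m hv hai hbi him hmk hm Stt.xy Stt.yx (fun e => by cases e)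
        (fun e => by cases e))
    · by_cases hm' : ∃ m ≤ k, 2 ≤ a m
      · obtain ⟨m, hmk, hm'⟩ := hm'
        have him : i < m := by
          by_contra hc
          have hab := (h2 n _ hLR k a i hv.ik).1 ⟨hv.ai, m, by omega, hm'⟩
          have := hna i hv.ik hv.ai hab
          omega
        obtain ⟨hv', hsw⟩ := h3 β β hB (fun _ _ h => h) k a b i hv
        refine eg_nil ((hsw Stt.xy Stt.yx (fun e => by cases e) (fun e => by cases e)).2.mpr ?_)
        exact h6 β hβ k b a i m hv' hbi hai him hmk hm' _ _ (fun e => by cases e)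
          (fun e => by cases e)
      · push Not at hm hm'
        refine ⟨[(asm k (W a b i Stt.xy), asm k (W a b i Stt.yx))], fun e he => ?_,
          fun θ _ _ => ?_⟩
        · rw [List.mem_singleton.mp he]
          exact h7 β hβ k a b i hv (fun j hj => by have := hm' j hj; omega)
            (fun j hj => by have := hm j hj; omega)
        · simp [Tr]
  · have hT := h5 β hβ k a b i hv hb
    exact ⟨eg_nil (hT _ _ (fun e => by cases e) (fun _ => Or.inr hb)),
      eg_nil (hT _ _ (fun e => by cases e) (fun _ => Or.inr hb))⟩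

end Pool.Agent.MWHP.F.H9
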