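import Pool.Agent.Helper10_MWHP.NFE
import Pool.Agent.Helper10_MWHP.SWH
import Pool.Agent.Helper13_MWHP.CPH
import Pool.Agent.Helper13_MWHP.DBN
import Pool.Agent.Helper13_MWS.TLP
import Pool.Agent.Helper15_MWL.FLB
import Pool.Agent.Helper19_MWHP.JPIN
import Pool.Agent.Helper19_MWHQ.LT5
import Pool.Agent.Helper19_MWL.TA2
import Pool.Agent.Helper1_MWHQ.JLA
import Pool.Agent.Helper21_MWHP.RSN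
import Pool.Agent.Helper22_MWHP.PS0
import Pool.Agent.Helper22_MWL.ABS
import Pool.Agent.Helper23_MWA.NDQ
import Pool.Agent.Helper23_MWHQ.PIN
import Pool.Agent.Helper26_MWS.LBB
import Pool.Agent.Helper27_MWHP.ALG
import Pool.Agent.Helper27_MWS.GLD
import Pool.Agent.Helper2_MWHP.D2N
import Pool.Agent.Helper2_MWHQ.LT6
import Pool.Agent.Helper30_MWHP.LT4
import Pool.Agent.Helper30_MWL.NDF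
import Pool.Agent.Helper30_MWS.BFX
import Pool.Agent.Helper31_MVO.COM
import Pool.Agent.Helper34_MWL.LAW
import Pool.Agent.Helper36_MWHP.EQW
import Pool.Agent.Helper36_MWHP.LT3
import Pool.Agent.Helper36_MWHP.MASN
import Pool.Agent.Helper36_MWHP.RES
import Pool.Agent.Helper36_MWHP.SWT
import Pool.Agent.Helper36_MWHQ.ED2
import Pool.Agent.Helper37_MWS.CHK
import Pool.Agent.Helper38_MVO.REN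
import Pool.Agent.Helper39_MWA.BLQ
import Pool.Agent.Helper39_MWHP.NRX
import Pool.Agent.Helper39_MWHP.SHN
import Pool.Agent.Helper3_MWHP.TLMN
import Pool.Agent.Helper3_MWL.JPR
import Pool.Agent.Helper43_MWHP.DGC
import Pool.Agent.Helper43_MWHQ.HH2
import Pool.Agent.Helper45_MWA.CHQ
import Pool.Agent.Helper45_MWL.RMV
import Pool.Agent.Helper48_MWHP.H13_UX1
import Pool.Agent.Helper48_MWHP.H19_J2S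
import Pool.Agent.Helper48_MWHP.H23_ENN
import Pool.Agent.Helper48_MWHP.H23_J11
import Pool.Agent.Helper48_MWHP.H23_KK1
import Pool.Agent.Helper48_MWHP.H23_KK2
import Pool.Agent.Helper48_MWHP.H24_JLL
import Pool.Agent.Helper48_MWHP.H24_K10
import Pool.Agent.Helper48_MWHP.H24_KK9
import Pool.Agent.Helper48_MWHP.H2_V01
import Pool.Agent.Helper48_MWHP.H30_EK5
import Pool.Agent.Helper48_MWHP.H30_ERI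
import Pool.Agent.Helper48_MWHP.H33_LHR
import Pool.Agent.Helper48_MWHP.H33_TLH
import Pool.Agent.Helper48_MWHP.H33_TLL
import Pool.Agent.Helper48_MWHP.H34_KP2
import Pool.Agent.Helper48_MWHP.H36_DI5
import Pool.Agent.Helper48_MWHP.H36_ENL
import Pool.Agent.Helper48_MWHP.H39_EHH
import Pool.Agent.Helper48_MWHP.H39_U1L
import Pool.Agent.Helper48_MWHP.H39_UX3
import Pool.Agent.Helper48_MWHP.H39_UX4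
import Pool.Agent.Helper48_MWHP.H3_EDC
import Pool.Agent.Helper48_MWHP.H43_UX2
import Pool.Agent.Helper48_MWHP.H46_HVJ
import Pool.Agent.Helper48_MWHP.H49_U10
import Pool.Agent.Helper48_MWHP.H51_BJ4
import Pool.Agent.Helper48_MWHP.H52_KHH
import Pool.Agent.Helper48_MWHP.H59_U01
import Pool.Agent.Helper48_MWHP.H59_U11
import Pool.Agent.Helper48_MWHP.H59_UEV
import Pool.Agent.Helper48_MWHP.H60_J01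
import Pool.Agent.Helper48_MWHP.H60_J10
import Pool.Agent.Helper48_MWHP.H60_J1L
import Pool.Agent.Helper48_MWHP.H60_JEV
import Pool.Agent.Helper48_MWHP.H60_JX1
import Pool.Agent.Helper48_MWHP.H60_JX2
import Pool.Agent.Helper48_MWHP.H60_JX3
import Pool.Agent.Helper48_MWHP.H60_JX4
import Pool.Agent.Helper48_MWHP.H60_K01
import Pool.Agent.Helper48_MWHP.H60_KP1
import Pool.Agent.Helper48_MWHP.H67_VP2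
import Pool.Agent.Helper48_MWHP.H69_TJP
import Pool.Agent.Helper48_MWHP.H6_PIN
import Pool.Agent.Helper48_MWHP.H70_DI4
import Pool.Agent.Helper48_MWHP.H75_EL4
import Pool.Agent.Helper48_MWHP.H76_EG4
import Pool.Agent.Helper48_MWHP.H77_LHL
import Pool.Agent.Helper48_MWHP.H7_TDI
import Pool.Agent.Helper48_MWHP.H80_EL5
import Pool.Agent.Helper48_MWHP.H89_EG5
import Pool.Agent.Helper48_MWHP.H8_BJ5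
import Pool.Agent.Helper48_MWHP.H94_EK4
import Pool.Agent.Helper48_MWHP.H9_TEP
import Pool.Agent.Helper48_MWHP.H9_V10
import Pool.Agent.Helper48_MWHPA.ABO
import Pool.Agent.Helper48_MWHPA.ALL
import Pool.Agent.Helper48_MWHPA.EDV
import Pool.Agent.Helper48_MWHPA.LT2
import Pool.Agent.Helper48_MWHPA.NFW
import Pool.Agent.Helper48_MWHPA.SHW
import Pool.Agent.Helper48_MWHPA.STN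
import Pool.Agent.Helper49_MWA.DGA
import Pool.Agent.Helper49_MWHP.JPC
import Pool.Agent.Helper4_MWHQ.J2T
import Pool.Agent.Helper51_MWL.DMX
import Pool.Agent.Helper52_MWL.TAB
import Pool.Agent.Helper53_MWA.MUX
import Pool.Agent.Helper54_MWL.HVP
import Pool.Agent.Helper59_MWHP.ABI
import Pool.Agent.Helper59_MWHP.ABJ
import Pool.Agent.Helper5_MVO.ONE
import Pool.Agent.Helper60_MWH.OKW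
import Pool.Agent.Helper60_MWHP.PSL
import Pool.Agent.Helper60_MWHP.SATN
import Pool.Agent.Helper64_MWA.MUY
import Pool.Agent.Helper64_MWHP.ALA
import Pool.Agent.Helper64_MWHQ.DI2
import Pool.Agent.Helper67_MWHQ.JHB
import Pool.Agent.Helper69_MWHP.JPX
import Pool.Agent.Helper69_MWL.JFC
import Pool.Agent.Helper6_MWHQ.DLB
import Pool.Agent.Helper75_MWHP.DGQ
import Pool.Agent.Helper75_MWHP.NSN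
import Pool.Agent.Helper75_MWHQ.RDL
import Pool.Agent.Helper75_MWL.TA1
import Pool.Agent.Helper77_MWHP.INT
import Pool.Agent.Helper77_MWL.TRN
import Pool.Agent.Helper7_MWHP.RPN
import Pool.Agent.Helper7_MWL.KEY
import Pool.Agent.Helper80_MWA.CNP
import Pool.Agent.Helper81_MWHP.MJN
import Pool.Agent.Helper81_MWHP.MON
import Pool.Agent.Helper82_MWS.BLR
import Pool.Agent.Helper85_MWA.CMN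
import Pool.Agent.Helper85_MWA.HAP
import Pool.Agent.Helper85_MWA.NRQ
import Pool.Agent.Helper88_MWL.PRM
import Pool.Agent.Helper8_MWHP.LRNN
import Pool.Agent.Helper8_MWHQ.BB2
import Pool.Agent.Helper90_MWL.CLO
import Pool.Agent.Helper92_MWHP.FRN
import Pool.Agent.Helper97_MWL.ARR

/-!
# MP_23468a_al, base (h): composition of the rows (generated)
-/

namespace Pool.Agent.MWHP.Comp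

theorem c_MWS_Gld : Pool.Agent.MWS.GldStmt :=
  Pool.Agent.MWS.H27.gld 
theorem c_MWA_Mux : Pool.Agent.MWA.MuxStmt :=
  Pool.Agent.MWA.H53.mux 
theorem c_MVO_Com : Pool.Agent.MVO.ComStmt :=
  Pool.Agent.MVO.H31.com 
theorem c_MWA_Cmn : Pool.Agent.MWA.CmnStmt :=
  Pool.Agent.MWA.H85.cmn c_MVO_Com
theorem c_MWA_Od1 : Pool.Agent.MWA.Od1Stmt :=
  Pool.Agent.MWA.H49.od1 
theorem c_MWA_Dga : Pool.Agent.MWA.DgaStmt :=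
  Pool.Agent.MWA.H49.dga c_MWA_Cmn c_MWA_Od1
theorem c_MWL_Trn : Pool.Agent.MWL.TrnStmt :=
  Pool.Agent.MWL.H77.trn 
theorem c_MWA_Hap : Pool.Agent.MWA.HapStmt :=
  Pool.Agent.MWA.H85.hap c_MWL_Trn
theorem c_MWA_Muy : Pool.Agent.MWA.MuyStmt :=
  Pool.Agent.MWA.H64.muy c_MWA_Mux
theorem c_MWHP_Dgc : Pool.Agent.MWHP.DgcStmt :=
  Pool.Agent.MWHP.H43.dgc c_MWA_Hap c_MWA_Cmn c_MWA_Mux c_MWA_Muy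
theorem c_MWHP_Dgq : Pool.Agent.MWHP.DgqStmt :=
  Pool.Agent.MWHP.H75.dgq c_MWA_Mux c_MWA_Dga c_MWHP_Dgc
theorem c_MVO_Ren : Pool.Agent.MVO.RenStmt :=
  Pool.Agent.MVO.H38.ren 
theorem c_MWA_Nrq : Pool.Agent.MWA.NrqStmt :=
  Pool.Agent.MWA.H85.nrq 
theorem c_MWA_Blq : Pool.Agent.MWA.BlqStmt :=
  Pool.Agent.MWA.H39.blq c_MVO_Ren c_MWA_Nrq
theorem c_MWS_Tlp : Pool.Agent.MWS.TlpStmt :=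
  Pool.Agent.MWS.H13.tlp 
theorem c_MVO_One : Pool.Agent.MVO.OneStmt :=
  Pool.Agent.MVO.H5.one 
theorem c_MWL_Hvp : Pool.Agent.MWL.HvpStmt :=
  Pool.Agent.MWL.H54.hvp 
theorem c_MWL_Abs : Pool.Agent.MWL.AbsStmt :=
  Pool.Agent.MWL.H22.abs c_MWL_Trn c_MWL_Hvp
theorem c_MWL_Key : Pool.Agent.MWL.KeyStmt :=
  Pool.Agent.MWL.H7.key c_MWL_Trn c_MWL_Hvp c_MWL_Abs
theorem c_MWL_Ndf : Pool.Agent.MWL.NdfStmt :=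
  Pool.Agent.MWL.H30.ndf 
theorem c_MWA_Ndq : Pool.Agent.MWA.NdqStmt :=
  Pool.Agent.MWA.H23.ndq c_MWL_Ndf
theorem c_MWHP_Lrnn : Pool.Agent.MWHP.LrnnStmt :=
  Pool.Agent.MWHP.H8.lrnn 
theorem c_MWS_Chk : Pool.Agent.MWS.ChkStmt :=
  Pool.Agent.MWS.H37.chk 
theorem c_MWHP_Int : Pool.Agent.MWHP.IntStmt :=
  Pool.Agent.MWHP.H77.int 
theorem c_MWHP_Rpn : Pool.Agent.MWHP.RpnStmt :=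
  Pool.Agent.MWHP.H7.rpn c_MWHP_Int
theorem c_MWS_Blr : Pool.Agent.MWS.BlrStmt :=
  Pool.Agent.MWS.H82.blr 
theorem c_MWHP_Dbn : Pool.Agent.MWHP.DbnStmt :=
  Pool.Agent.MWHP.H13.dbn c_MWS_Blr c_MWHP_Rpn
theorem c_MWHP_Satn : Pool.Agent.MWHP.SatnStmt :=
  Pool.Agent.MWHP.H60.satn c_MWL_Trn c_MWL_Abs c_MWHP_Lrnn c_MWS_Chk c_MWHP_Rpn c_MWHP_Dbn
theorem c_MWHP_Stn : Pool.Agent.MWHP.StnStmt :=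
  Pool.Agent.MWHP.H48T.sta c_MVO_One c_MWL_Trn c_MWHP_Satn
theorem c_MWHP_Alg : Pool.Agent.MWHP.AlgStmt :=
  Pool.Agent.MWHP.H27.alg c_MWS_Chk c_MWHP_Dbn
theorem c_MWHP_Ala : Pool.Agent.MWHP.AlaStmt :=
  Pool.Agent.MWHP.H64.ala c_MWHP_Alg
theorem c_MWHP_Shn : Pool.Agent.MWHP.ShnStmt :=
  Pool.Agent.MWHP.H39.shn c_MVO_One c_MWL_Trn c_MWL_Key c_MWA_Ndq c_MWHP_Lrnn c_MWHP_Stn c_MWHP_Ala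
theorem c_MWHP_D2n : Pool.Agent.MWHP.D2nStmt :=
  Pool.Agent.MWHP.H2.d2n c_MVO_One c_MWHP_Shn
theorem c_MWL_Dmx : Pool.Agent.MWL.DmxStmt :=
  Pool.Agent.MWL.H51.dmx c_MWL_Hvp
theorem c_MWL_Arr : Pool.Agent.MWL.ArrStmt :=
  Pool.Agent.MWL.H97.arr c_MWL_Trn c_MWL_Hvp c_MWL_Abs
theorem c_MWL_Ta1 : Pool.Agent.MWL.Ta1Stmt :=
  Pool.Agent.MWL.H75.ta1 c_MWL_Trn c_MWL_Hvp c_MWL_Abs c_MWL_Arr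
theorem c_MWL_Ta2 : Pool.Agent.MWL.Ta2Stmt :=
  Pool.Agent.MWL.H19.ta2 c_MWL_Trn c_MWL_Hvp c_MWL_Abs c_MWL_Arr c_MWL_Ta1
theorem c_MWL_Tab : Pool.Agent.MWL.TabStmt :=
  Pool.Agent.MWL.H52.tab c_MWL_Hvp c_MWL_Ta1 c_MWL_Ta2
theorem c_MWL_Rmv : Pool.Agent.MWL.RmvStmt :=
  Pool.Agent.MWL.H45.rmv c_MWL_Hvp
theorem c_MWL_Clo : Pool.Agent.MWL.CloStmt :=
  Pool.Agent.MWL.H90.clo c_MWL_Trn c_MWL_Hvp c_MWL_Abs c_MWL_Rmv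
theorem c_MWL_Flb : Pool.Agent.MWL.FlbStmt :=
  Pool.Agent.MWL.H15.flb c_MWL_Key c_MWL_Trn c_MWL_Tab c_MWL_Rmv c_MWL_Clo
theorem c_MWL_Prm : Pool.Agent.MWL.PrmStmt :=
  Pool.Agent.MWL.H88.prm c_MWL_Hvp c_MWL_Arr c_MWL_Ta1 c_MWL_Ta2
theorem c_MWL_Jpr : Pool.Agent.MWL.JprStmt :=
  Pool.Agent.MWL.H3.jpr c_MWL_Trn c_MWL_Hvp c_MWL_Abs c_MWL_Key c_MWL_Prm
theorem c_MWL_Jfc : Pool.Agent.MWL.JfcStmt :=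
  Pool.Agent.MWL.H69.jfc c_MWL_Rmv
theorem c_MWL_Law : Pool.Agent.MWL.LawStmt :=
  Pool.Agent.MWL.H34.law c_MWL_Dmx c_MWL_Flb c_MWL_Jpr c_MWL_Jfc
theorem c_MWA_Chq : Pool.Agent.MWA.ChqStmt :=
  Pool.Agent.MWA.H45.chq c_MWA_Nrq
theorem c_MWHP_Mon : Pool.Agent.MWHP.MonStmt :=
  Pool.Agent.MWHP.H81.mon c_MVO_One c_MWL_Law c_MWA_Chq c_MWA_Ndq c_MWHP_Lrnn c_MWHP_Shn
theorem c_MWHP_Nsn : Pool.Agent.MWHP.NsnStmt :=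
  Pool.Agent.MWHP.H75.nsn 
theorem c_MWHP_Mjn : Pool.Agent.MWHP.MjnStmt :=
  Pool.Agent.MWHP.H81.mjn c_MWHP_Nsn
theorem c_MWHP_Tlmn : Pool.Agent.MWHP.TlmnStmt :=
  Pool.Agent.MWHP.H3.tlmn c_MWS_Gld c_MWHP_Dgq c_MWA_Blq c_MWS_Tlp c_MWHP_D2n c_MWHP_Mon c_MWHP_Mjn
theorem c_MWS_Bfx : Pool.Agent.MWS.BfxStmt :=
  Pool.Agent.MWS.H30.bfx 
theorem c_MWS_Lbb : Pool.Agent.MWS.LbbStmt :=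
  Pool.Agent.MWS.H26.lbb c_MWS_Bfx
theorem c_MWHP_Frn : Pool.Agent.MWHP.FrnStmt :=
  Pool.Agent.MWHP.H92.frn c_MWHP_Int
theorem c_MWHP_Rsn : Pool.Agent.MWHP.RsnStmt :=
  Pool.Agent.MWHP.H21.rsn c_MWHP_Rpn
theorem c_MWHP_Masn : Pool.Agent.MWHP.MasnStmt :=
  Pool.Agent.MWHP.H36M.masn c_MWS_Bfx c_MWS_Lbb c_MWHP_Frn c_MWHP_Rsn
theorem c_MWHP_Nfe : Pool.Agent.MWHP.NfeStmt :=
  Pool.Agent.MWHP.H10.nfe c_MWHP_Masn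
theorem c_MWHP_Swh : Pool.Agent.MWHP.SwhStmt :=
  Pool.Agent.MWHP.H10.swh c_MWHP_Masn c_MWHP_Nfe
theorem c_MWHP_F_Lrn (n : ℕ) : Pool.Agent.MWHP.F.LrnStmt n := c_MWHP_Lrnn n
theorem c_MWH_Okw : Pool.Agent.MWH.OkwStmt :=
  Pool.Agent.MWH.H60.okw 
theorem c_MWHP_Swt : Pool.Agent.MWHP.SwtStmt :=
  Pool.Agent.MWHP.H36.swt c_MWHP_Nfe c_MWH_Okw
theorem c_MWHP_F_Swt (n : ℕ) : Pool.Agent.MWHP.F.SwtStmt n := c_MWHP_Swt n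
theorem c_MWHP_Nfw : Pool.Agent.MWHP.NfwStmt :=
  Pool.Agent.MWHP.H48W.nfw c_MWHP_Nfe c_MWH_Okw
theorem c_MWHP_Eqw : Pool.Agent.MWHP.EqwStmt :=
  Pool.Agent.MWHP.H36.eqw c_MWHP_Nfe c_MWH_Okw
theorem c_MWHP_All : Pool.Agent.MWHP.AllStmt :=
  Pool.Agent.MWHP.H48A.all c_MWHP_Nfe c_MWH_Okw
theorem c_MWHP_Abi : Pool.Agent.MWHP.AbiStmt :=
  Pool.Agent.MWHP.H59.abi c_MWHP_Satn c_MWHP_Nfe c_MWH_Okw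
theorem c_MWHP_Abj : Pool.Agent.MWHP.AbjStmt :=
  Pool.Agent.MWHP.H59.abj c_MWHP_Satn c_MWHP_Nfe c_MWH_Okw
theorem c_MWHP_Nrx : Pool.Agent.MWHP.NrxStmt :=
  Pool.Agent.MWHP.H39.nrx c_MWL_Trn c_MWHP_Abi c_MWHP_Abj
theorem c_MWHP_Edv : Pool.Agent.MWHP.EdvStmt :=
  Pool.Agent.MWHP.H48.edv c_MWHP_Nfe c_MWHP_Nfw c_MWHP_Eqw c_MWHP_Swt c_MWHP_All c_MWHP_Nrx
theorem c_MWHP_F_Edv (n : ℕ) : Pool.Agent.MWHP.F.EdvStmt n := c_MWHP_Edv n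
theorem c_MWHP_F_All (n : ℕ) : Pool.Agent.MWHP.F.AllStmt n := c_MWHP_All n
theorem c_MWHP_Shw : Pool.Agent.MWHP.ShwStmt :=
  Pool.Agent.MWHP.H48S.shw c_MWHP_Nfe c_MWH_Okw c_MWHP_All
theorem c_MWHP_Ps0 : Pool.Agent.MWHP.Ps0Stmt :=
  Pool.Agent.MWHP.H22.ps0 c_MWHP_Nfe c_MWH_Okw c_MWHP_Shw
theorem c_MWHP_F_Ps0 (n : ℕ) : Pool.Agent.MWHP.F.Ps0Stmt n := c_MWHP_Ps0 n
theorem c_MWHP_F_Pin (n : ℕ) : Pool.Agent.MWHP.F.PinStmt n :=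
  Pool.Agent.MWHP.F.H6.pin (c_MWHP_F_Ps0 n)
theorem c_MWHP_F_Tlh (n : ℕ) : Pool.Agent.MWHP.F.TlhStmt n :=
  Pool.Agent.MWHP.F.H33.L.tlh (c_MWHP_F_Swt n) (c_MWHP_F_All n) (c_MWHP_F_Pin n)
theorem c_MWHP_F_Tll (n : ℕ) : Pool.Agent.MWHP.F.TllStmt n :=
  Pool.Agent.MWHP.F.H33.T.tll (c_MWHP_F_Swt n) (c_MWHP_F_Pin n)
theorem c_MWHP_Jpin : Pool.Agent.MWHP.JpinStmt :=
  Pool.Agent.MWHP.H19.jpin c_MWA_Chq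
theorem c_MWHP_Res : Pool.Agent.MWHP.ResStmt :=
  Pool.Agent.MWHP.H36.res c_MWHP_Nfe c_MWH_Okw
theorem c_MWHP_Jpx : Pool.Agent.MWHP.JpxStmt :=
  Pool.Agent.MWHP.H69.jpx c_MVO_One c_MWL_Trn c_MWL_Abs c_MWL_Key c_MWHP_Lrnn c_MWA_Ndq c_MWHP_Jpin c_MWHP_Nfe c_MWH_Okw c_MWHP_Shw c_MWHP_Res
theorem c_MWHP_F_Jpx (n : ℕ) : Pool.Agent.MWHP.F.JpxStmt n := c_MWHP_Jpx n
theorem c_MWHP_F_Abi (n : ℕ) : Pool.Agent.MWHP.F.AbiStmt n := c_MWHP_Abi n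
theorem c_MWHP_F_Abj (n : ℕ) : Pool.Agent.MWHP.F.AbjStmt n := c_MWHP_Abj n
theorem c_MWHP_Abo : Pool.Agent.MWHP.AboStmt :=
  Pool.Agent.MWHP.H48O.abo c_MWHP_Satn c_MWHP_Nfe c_MWH_Okw
theorem c_MWHP_F_Abo (n : ℕ) : Pool.Agent.MWHP.F.AboStmt n := c_MWHP_Abo n
theorem c_MWHP_F_Tjp (n : ℕ) : Pool.Agent.MWHP.F.TjpStmt n :=
  Pool.Agent.MWHP.F.H69T.tjp (c_MWHP_F_Lrn n) c_MWL_Hvp (c_MWHP_F_Swt n) (c_MWHP_F_Jpx n) (c_MWHP_F_Abi n) (c_MWHP_F_Abj n) (c_MWHP_F_Abo n) (c_MWHP_F_Tlh n) (c_MWHP_F_Tll n)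
theorem c_MWHP_F_Tep (n : ℕ) : Pool.Agent.MWHP.F.TepStmt n :=
  Pool.Agent.MWHP.F.H9.tep (c_MWHP_F_Lrn n) c_MWL_Hvp (c_MWHP_F_Swt n) (c_MWHP_F_Edv n) (c_MWHP_F_Tlh n) (c_MWHP_F_Tll n) (c_MWHP_F_Tjp n)
theorem c_MWHP_F_Tdi (n : ℕ) : Pool.Agent.MWHP.F.TdiStmt n :=
  Pool.Agent.MWHP.F.H7.tdi c_MWHP_Tlmn c_MWHP_Swh (c_MWHP_F_Tep n)
theorem c_MWHP_F_Bj4 (n : ℕ) : Pool.Agent.MWHP.F.Bj4Stmt n :=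
  Pool.Agent.MWHP.F.H51.bj4 
theorem c_MWHP_F_Nfe (n : ℕ) : Pool.Agent.MWHP.F.NfeStmt n := c_MWHP_Nfe n
theorem c_MWHP_F_Khh (n : ℕ) : Pool.Agent.MWHP.F.KhhStmt n :=
  Pool.Agent.MWHP.F.H52.khh (c_MWHP_F_Nfe n) c_MWH_Okw (c_MWHP_F_Swt n) (c_MWHP_F_Pin n)
theorem c_MWHP_F_Ehh (n : ℕ) : Pool.Agent.MWHP.F.EhhStmt n :=
  Pool.Agent.MWHP.F.H39.ehh (c_MWHP_F_Khh n)
theorem c_MWHP_Lt3 : Pool.Agent.MWHP.Lt3Stmt :=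
  Pool.Agent.MWHP.H36.lt3 c_MWL_Hvp c_MWL_Arr c_MWL_Ta2
theorem c_MWHP_F_Lt3 (n : ℕ) : Pool.Agent.MWHP.F.Lt3Stmt n := c_MWHP_Lt3 n
theorem c_MWHP_F_Kk1 (n : ℕ) : Pool.Agent.MWHP.F.Kk1Stmt n :=
  Pool.Agent.MWHP.F.H23.kk1 (c_MWHP_F_Swt n) (c_MWHP_F_All n) (c_MWHP_F_Pin n) (c_MWHP_F_Khh n)
theorem c_MWHP_F_Enl (n : ℕ) : Pool.Agent.MWHP.F.EnlStmt n :=
  Pool.Agent.MWHP.F.H36.enl (c_MWHP_F_Lrn n) (c_MWHP_F_Lt3 n) (c_MWHP_F_Kk1 n)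
theorem c_MWHP_Lt4 : Pool.Agent.MWHP.Lt4Stmt :=
  Pool.Agent.MWHP.H30.lt4 c_MWL_Hvp c_MWL_Arr c_MWL_Ta1 c_MWL_Ta2
theorem c_MWHP_F_Lt4 (n : ℕ) : Pool.Agent.MWHP.F.Lt4Stmt n := c_MWHP_Lt4 n
theorem c_MWHP_F_Lhr (n : ℕ) : Pool.Agent.MWHP.F.LhrStmt n :=
  Pool.Agent.MWHP.F.H33.lhr (c_MWHP_F_Swt n) (c_MWHP_F_Pin n)
theorem c_MWHP_Psl : Pool.Agent.MWHP.PslStmt :=
  Pool.Agent.MWHP.H60.psl c_MWHP_Nfe c_MWH_Okw c_MWHP_Shw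
theorem c_MWHP_F_Psl (n : ℕ) : Pool.Agent.MWHP.F.PslStmt n := c_MWHP_Psl n
theorem c_MWHP_F_Ux1 (n : ℕ) : Pool.Agent.MWHP.F.Ux1Stmt n :=
  Pool.Agent.MWHP.F.H13.ux1 (c_MWHP_F_Psl n) (c_MWHP_F_Pin n)
theorem c_MWHP_Lt2 : Pool.Agent.MWHP.Lt2Stmt :=
  Pool.Agent.MWHP.H48L.lt2' c_MWL_Arr c_MWL_Ta2
theorem c_MWHP_Jpc : Pool.Agent.MWHP.JpcStmt :=
  Pool.Agent.MWHP.H49.jpc c_MWHP_Lrnn c_MWHP_Lt2 c_MWHP_Jpx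
theorem c_MWHP_F_Jpc (n : ℕ) : Pool.Agent.MWHP.F.JpcStmt n := c_MWHP_Jpc n
theorem c_MWHP_F_Lt2 (n : ℕ) : Pool.Agent.MWHP.F.Lt2Stmt n := c_MWHP_Lt2 n
theorem c_MWHP_F_Kk2 (n : ℕ) : Pool.Agent.MWHP.F.Kk2Stmt n :=
  Pool.Agent.MWHP.F.H23.kk2 (c_MWHP_F_Swt n) (c_MWHP_F_Pin n)
theorem c_MWHP_F_J2s (n : ℕ) : Pool.Agent.MWHP.F.J2sStmt n :=
  Pool.Agent.MWHP.F.H19.j2s (c_MWHP_F_Lrn n) (c_MWHP_F_Lt2 n) (c_MWHP_F_Abi n) (c_MWHP_F_Abj n) (c_MWHP_F_Khh n) (c_MWHP_F_Kk1 n) (c_MWHP_F_Kk2 n)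
theorem c_MWHP_F_Jx1 (n : ℕ) : Pool.Agent.MWHP.F.Jx1Stmt n :=
  Pool.Agent.MWHP.F.H60.jx1 (c_MWHP_F_Jpc n) (c_MWHP_F_Abo n) (c_MWHP_F_J2s n)
theorem c_MWHP_F_Eri (n : ℕ) : Pool.Agent.MWHP.F.EriStmt n :=
  Pool.Agent.MWHP.F.H30.eri (c_MWHP_F_Lrn n) (c_MWHP_F_Lt4 n) (c_MWHP_F_Lhr n) (c_MWHP_F_Ux1 n) (c_MWHP_F_Jx1 n)
theorem c_MWHP_F_Enn (n : ℕ) : Pool.Agent.MWHP.F.EnnStmt n :=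
  Pool.Agent.MWHP.F.H23.enn (c_MWHP_F_Lrn n) (c_MWHP_F_Lt3 n) (c_MWHP_F_Kk2 n)
theorem c_MWHP_F_Jll (n : ℕ) : Pool.Agent.MWHP.F.JllStmt n :=
  Pool.Agent.MWHP.F.H24.jll (c_MWHP_F_Lrn n) (c_MWHP_F_Lt2 n) (c_MWHP_F_Jpc n) (c_MWHP_F_J2s n)
theorem c_MWHP_F_Edc (n : ℕ) : Pool.Agent.MWHP.F.EdcStmt n :=
  Pool.Agent.MWHP.F.H3.edc (c_MWHP_F_Swt n) (c_MWHP_F_Edv n) (c_MWHP_F_Ehh n) (c_MWHP_F_Enl n) (c_MWHP_F_Eri n) (c_MWHP_F_Enn n) (c_MWHP_F_Jll n)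
theorem c_MWHP_F_Lhl (n : ℕ) : Pool.Agent.MWHP.F.LhlStmt n :=
  Pool.Agent.MWHP.F.H77.lhl (c_MWHP_F_Swt n) (c_MWHP_F_Pin n)
theorem c_MWHP_F_Ux2 (n : ℕ) : Pool.Agent.MWHP.F.Ux2Stmt n :=
  Pool.Agent.MWHP.F.H43.ux2 (c_MWHP_F_Psl n) (c_MWHP_F_Pin n)
theorem c_MWHP_F_Ux3 (n : ℕ) : Pool.Agent.MWHP.F.Ux3Stmt n :=
  Pool.Agent.MWHP.F.H39.ux3 (c_MWHP_F_Psl n) (c_MWHP_F_Pin n)
theorem c_MWHP_F_Ux4 (n : ℕ) : Pool.Agent.MWHP.F.Ux4Stmt n :=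
  Pool.Agent.MWHP.F.H39.ux4 (c_MWHP_F_Psl n) (c_MWHP_F_Pin n)
theorem c_MWHP_F_Jx2 (n : ℕ) : Pool.Agent.MWHP.F.Jx2Stmt n :=
  Pool.Agent.MWHP.F.H60.jx2 (c_MWHP_F_Jpc n) (c_MWHP_F_Abo n) (c_MWHP_F_J2s n)
theorem c_MWHP_F_Jx3 (n : ℕ) : Pool.Agent.MWHP.F.Jx3Stmt n :=
  Pool.Agent.MWHP.F.H60.jx3 (c_MWHP_F_Jpc n) (c_MWHP_F_Abj n) (c_MWHP_F_Abo n) (c_MWHP_F_Lhl n) (c_MWHP_F_J2s n)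
theorem c_MWHP_F_Jx4 (n : ℕ) : Pool.Agent.MWHP.F.Jx4Stmt n :=
  Pool.Agent.MWHP.F.H60.jx4 (c_MWHP_F_Jpc n) (c_MWHP_F_Abj n) (c_MWHP_F_Abo n) (c_MWHP_F_Lhl n) (c_MWHP_F_J2s n)
theorem c_MWHP_F_El4 (n : ℕ) : Pool.Agent.MWHP.F.El4Stmt n :=
  Pool.Agent.MWHP.F.H75.el4 (c_MWHP_F_Lrn n) (c_MWHP_F_Lt4 n) (c_MWHP_F_Bj4 n) (c_MWHP_F_Lhl n) (c_MWHP_F_Ux2 n) (c_MWHP_F_Ux3 n) (c_MWHP_F_Ux4 n) (c_MWHP_F_Jx2 n) (c_MWHP_F_Jx3 n) (c_MWHP_F_Jx4 n)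
theorem c_MWHP_F_Kk9 (n : ℕ) : Pool.Agent.MWHP.F.Kk9Stmt n :=
  Pool.Agent.MWHP.F.H24.kk9 (c_MWHP_F_Pin n)
theorem c_MWHP_F_U10 (n : ℕ) : Pool.Agent.MWHP.F.U10Stmt n :=
  Pool.Agent.MWHP.F.H49.u10 (c_MWHP_F_Ps0 n) (c_MWHP_F_Pin n)
theorem c_MWHP_F_U01 (n : ℕ) : Pool.Agent.MWHP.F.U01Stmt n :=
  Pool.Agent.MWHP.F.H59.u01 (c_MWHP_F_Ps0 n) (c_MWHP_F_Pin n)
theorem c_MWHP_F_U1l (n : ℕ) : Pool.Agent.MWHP.F.U1lStmt n :=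
  Pool.Agent.MWHP.F.H39.u1l (c_MWHP_F_Ps0 n) (c_MWHP_F_Pin n)
theorem c_MWHP_F_V10 (n : ℕ) : Pool.Agent.MWHP.F.V10Stmt n :=
  Pool.Agent.MWHP.F.H9.v10 (c_MWHP_F_Ps0 n) (c_MWHP_F_Pin n)
theorem c_MWHP_F_V01 (n : ℕ) : Pool.Agent.MWHP.F.V01Stmt n :=
  Pool.Agent.MWHP.F.H2.v01 (c_MWHP_F_Ps0 n) (c_MWHP_F_Pin n)
theorem c_MWHP_F_J10 (n : ℕ) : Pool.Agent.MWHP.F.J10Stmt n :=
  Pool.Agent.MWHP.F.H60.j10 (c_MWHP_F_Jpc n) (c_MWHP_F_Abj n) (c_MWHP_F_Abo n) (c_MWHP_F_Lhr n) (c_MWHP_F_J2s n)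
theorem c_MWHP_F_J01 (n : ℕ) : Pool.Agent.MWHP.F.J01Stmt n :=
  Pool.Agent.MWHP.F.H60.j01 (c_MWHP_F_Jpc n) (c_MWHP_F_Abj n) (c_MWHP_F_Abo n) (c_MWHP_F_Lhr n) (c_MWHP_F_J2s n)
theorem c_MWHP_F_J1l (n : ℕ) : Pool.Agent.MWHP.F.J1lStmt n :=
  Pool.Agent.MWHP.F.H60.j1l (c_MWHP_F_Jpc n) (c_MWHP_F_Abj n) (c_MWHP_F_Abo n) (c_MWHP_F_Lhr n) (c_MWHP_F_Kk9 n) (c_MWHP_F_J2s n)
theorem c_MWHP_F_Hvj (n : ℕ) : Pool.Agent.MWHP.F.HvjStmt n :=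
  Pool.Agent.MWHP.F.H46.hvj (c_MWHP_F_Lrn n) c_MWL_Hvp (c_MWHP_F_Abj n)
theorem c_MWHP_F_K10 (n : ℕ) : Pool.Agent.MWHP.F.K10Stmt n :=
  Pool.Agent.MWHP.F.H24.k10 (c_MWHP_F_Jpc n) (c_MWHP_F_Abj n) (c_MWHP_F_Abo n) (c_MWHP_F_Hvj n) (c_MWHP_F_Lhr n) (c_MWHP_F_J2s n)
theorem c_MWHP_F_K01 (n : ℕ) : Pool.Agent.MWHP.F.K01Stmt n :=
  Pool.Agent.MWHP.F.H60.k01 (c_MWHP_F_Jpc n) (c_MWHP_F_Abj n) (c_MWHP_F_Abo n) (c_MWHP_F_Hvj n) (c_MWHP_F_Lhr n) (c_MWHP_F_J2s n)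
theorem c_MWHP_F_Eg4 (n : ℕ) : Pool.Agent.MWHP.F.Eg4Stmt n :=
  Pool.Agent.MWHP.F.H76.eg4 (c_MWHP_F_Lrn n) (c_MWHP_F_Lt3 n) (c_MWHP_F_Lt4 n) (c_MWHP_F_Bj4 n) (c_MWHP_F_Kk9 n) (c_MWHP_F_U10 n) (c_MWHP_F_U01 n) (c_MWHP_F_U1l n) (c_MWHP_F_V10 n) (c_MWHP_F_V01 n) (c_MWHP_F_J10 n) (c_MWHP_F_J01 n) (c_MWHP_F_J1l n) (c_MWHP_F_K10 n) (c_MWHP_F_K01 n)
theorem c_MWHP_F_Uev (n : ℕ) : Pool.Agent.MWHP.F.UevStmt n :=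
  Pool.Agent.MWHP.F.H59.uev (c_MWHP_F_Ps0 n) (c_MWHP_F_Pin n)
theorem c_MWHP_F_Vp1 (n : ℕ) : Pool.Agent.MWHP.F.Vp1Stmt n :=
  Pool.Agent.MWHP.F.H67.vp1 (c_MWHP_F_Ps0 n) (c_MWHP_F_Pin n)
theorem c_MWHP_F_Vp2 (n : ℕ) : Pool.Agent.MWHP.F.Vp2Stmt n :=
  Pool.Agent.MWHP.F.H67.vp2 (c_MWHP_F_Ps0 n) (c_MWHP_F_Pin n)
theorem c_MWHP_F_Jev (n : ℕ) : Pool.Agent.MWHP.F.JevStmt n :=
  Pool.Agent.MWHP.F.H60.jev (c_MWHP_F_Jpc n) (c_MWHP_F_Abj n) (c_MWHP_F_Abo n) (c_MWHP_F_Lhl n) (c_MWHP_F_J2s n)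
theorem c_MWHP_F_Kp1 (n : ℕ) : Pool.Agent.MWHP.F.Kp1Stmt n :=
  Pool.Agent.MWHP.F.H60.kp1 (c_MWHP_F_Jpc n) (c_MWHP_F_Abj n) (c_MWHP_F_Abo n) (c_MWHP_F_Hvj n) (c_MWHP_F_Lhl n) (c_MWHP_F_J2s n)
theorem c_MWHP_F_Kp2 (n : ℕ) : Pool.Agent.MWHP.F.Kp2Stmt n :=
  Pool.Agent.MWHP.F.H34.kp2 (c_MWHP_F_Jpc n) (c_MWHP_F_Abj n) (c_MWHP_F_Abo n) (c_MWHP_F_Hvj n) (c_MWHP_F_Lhl n) (c_MWHP_F_J2s n)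
theorem c_MWHP_F_Ek4 (n : ℕ) : Pool.Agent.MWHP.F.Ek4Stmt n :=
  Pool.Agent.MWHP.F.H94.ek4 (c_MWHP_F_Lrn n) (c_MWHP_F_Lt3 n) (c_MWHP_F_Lt4 n) (c_MWHP_F_Bj4 n) (c_MWHP_F_Uev n) (c_MWHP_F_Vp1 n) (c_MWHP_F_Vp2 n) (c_MWHP_F_Jev n) (c_MWHP_F_Kp1 n) (c_MWHP_F_Kp2 n)
theorem c_MWHP_F_Di4 (n : ℕ) : Pool.Agent.MWHP.F.Di4Stmt n :=
  Pool.Agent.MWHP.F.H70.di4 c_MWHP_Tlmn c_MWHP_Swh (c_MWHP_F_Bj4 n) (c_MWHP_F_Edc n) (c_MWHP_F_El4 n) (c_MWHP_F_Eg4 n) (c_MWHP_F_Ek4 n)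
theorem c_MWHP_F_Bj5 (n : ℕ) : Pool.Agent.MWHP.F.Bj5Stmt n :=
  Pool.Agent.MWHP.F.H8.bj5 
theorem c_MWHP_F_El5 (n : ℕ) : Pool.Agent.MWHP.F.El5Stmt n :=
  Pool.Agent.MWHP.F.H80.el5 (c_MWHP_F_Lrn n) (c_MWHP_F_Lt4 n) (c_MWHP_F_Bj5 n) (c_MWHP_F_Lhl n) (c_MWHP_F_Ux2 n) (c_MWHP_F_Ux3 n) (c_MWHP_F_Jx2 n) (c_MWHP_F_Jx3 n)
theorem c_MWHP_F_U11 (n : ℕ) : Pool.Agent.MWHP.F.U11Stmt n :=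
  Pool.Agent.MWHP.F.H59.u11 (c_MWHP_F_Ps0 n) (c_MWHP_F_Pin n)
theorem c_MWHP_F_J11 (n : ℕ) : Pool.Agent.MWHP.F.J11Stmt n :=
  Pool.Agent.MWHP.F.H23.j11 (c_MWHP_F_Jpc n) (c_MWHP_F_Abj n) (c_MWHP_F_Abo n) (c_MWHP_F_Lhr n) (c_MWHP_F_J2s n)
theorem c_MWHP_F_Eg5 (n : ℕ) : Pool.Agent.MWHP.F.Eg5Stmt n :=
  Pool.Agent.MWHP.F.H89.eg5 (c_MWHP_F_Lrn n) (c_MWHP_F_Lt3 n) (c_MWHP_F_Lt4 n) (c_MWHP_F_Bj5 n) (c_MWHP_F_U10 n) (c_MWHP_F_U01 n) (c_MWHP_F_U11 n) (c_MWHP_F_J10 n) (c_MWHP_F_J01 n) (c_MWHP_F_J11 n)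
theorem c_MWHP_F_Ek5 (n : ℕ) : Pool.Agent.MWHP.F.Ek5Stmt n :=
  Pool.Agent.MWHP.F.H30K.ek5 (c_MWHP_F_Lrn n) (c_MWHP_F_Lt3 n) (c_MWHP_F_Lt4 n) (c_MWHP_F_Bj5 n) (c_MWHP_F_Uev n) (c_MWHP_F_Jev n)
theorem c_MWHP_F_Di5 (n : ℕ) : Pool.Agent.MWHP.F.Di5Stmt n :=
  Pool.Agent.MWHP.F.H36.di5 c_MWHP_Tlmn c_MWHP_Swh (c_MWHP_F_Bj5 n) (c_MWHP_F_Edc n) (c_MWHP_F_El5 n) (c_MWHP_F_Eg5 n) (c_MWHP_F_Ek5 n)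
theorem c_MWA_Cnp : Pool.Agent.MWA.CnpStmt :=
  Pool.Agent.MWA.H80.cnp c_MWL_Trn c_MWA_Hap
theorem c_MWHQ_Bb2 : Pool.Agent.MWHQ.Bb2Stmt :=
  Pool.Agent.MWHQ.H8.bb2 c_MWL_Trn c_MWA_Cnp
theorem c_MWHQ_Lt5 : Pool.Agent.MWHQ.Lt5Stmt :=
  Pool.Agent.MWHQ.H19.lt5 c_MWL_Hvp c_MWL_Arr c_MWL_Ta1 c_MWL_Ta2
theorem c_MWHQ_Pin : Pool.Agent.MWHQ.PinStmt :=
  Pool.Agent.MWHQ.H23.pin c_MWHP_Ps0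
theorem c_MWHQ_Hh2 : Pool.Agent.MWHQ.Hh2Stmt :=
  Pool.Agent.MWHQ.H43.hh2 c_MWHP_All c_MWHQ_Pin
theorem c_MWHQ_Lt6 : Pool.Agent.MWHQ.Lt6Stmt :=
  Pool.Agent.MWHQ.H2.lt6 c_MWL_Arr c_MWL_Ta2
theorem c_MWHQ_J2t : Pool.Agent.MWHQ.J2tStmt :=
  Pool.Agent.MWHQ.H4.j2t c_MWHP_Lrnn c_MWHP_Abi c_MWHP_Abj c_MWHQ_Bb2 c_MWHQ_Lt6 c_MWHQ_Hh2
theorem c_MWHQ_Jla : Pool.Agent.MWHQ.JlaStmt :=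
  Pool.Agent.MWHQ.H1.jla c_MWHP_Lrnn c_MWHP_Lt2 c_MWHP_Jpc c_MWHQ_J2t
theorem c_MWHQ_Dlb : Pool.Agent.MWHQ.DlbStmt :=
  Pool.Agent.MWHQ.H6.dlb c_MWHP_Ps0 c_MWHQ_Pin
theorem c_MWHQ_Jhb : Pool.Agent.MWHQ.JhbStmt :=
  Pool.Agent.MWHQ.H67.jhb c_MWHP_Jpc c_MWHP_Abo c_MWHQ_J2t
theorem c_MWHQ_Rdl : Pool.Agent.MWHQ.RdlStmt :=
  Pool.Agent.MWHQ.H75.rdl c_MWHQ_Dlb c_MWHQ_Jhb
theorem c_MWHQ_Ed2 : Pool.Agent.MWHQ.Ed2Stmt :=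
  Pool.Agent.MWHQ.H36.ed2 c_MWHP_Lrnn c_MWHP_Edv c_MWHQ_Bb2 c_MWHQ_Lt5 c_MWHQ_Hh2 c_MWHQ_Jla c_MWHQ_Rdl
theorem c_MWHQ_Di2 : Pool.Agent.MWHQ.Di2Stmt :=
  Pool.Agent.MWHQ.H64.di2 c_MWHP_Tlmn c_MWHP_Swh c_MWHQ_Ed2
theorem c_MWHP_Cph : Pool.Agent.MWHP.CphStmt :=
  Pool.Agent.MWHP.H13.cph 

end Pool.Agent.MWHP.Comp
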