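import Pool.Agent.MWHP.StmtsF
import Pool.Agent.MWHQ.Stmts
import Pool.Agent.MWZ.Stmts

/-!
# MP_23468a_al, base (h) for all periods: the bridge from `MWZ.SysH` to the structures of MWHP
-/

set_option autoImplicit false

namespace Pool.Agent.MWHP.Br

open Pool.Agent.Helper14_MV Pool.Agent.Helper2_MV Pool.Agent.MVO Pool.Agent.MWL Pool.Agent.MWS
open Pool.Agent.MWH

/-- a block in its context -/
theorem ctx1 (B : ℕ → List ℕ) (i : ℕ) : ∀ k, i ≤ k → ∃ p s : List ℕ,
    ∀ u, asm k (Function.update B i u) = p ++ (u ++ s) := by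
  intro k
  induction k with
  | zero =>
    intro hi
    have : i = 0 := by omega
    subst this
    exact ⟨[], [], fun u => by simp [asm]⟩
  | succ k ih =>
    intro hi
    by_cases h : i = k + 1
    · subst h
      refine ⟨asm k B ++ [k + 2], [], fun u => ?_⟩
      simp only [asm, Function.update_self, List.append_nil, List.append_assoc]
      congr 1
      apply asm_congr
      intro j hj
      rw [Function.update_of_ne (by omega)]
    · obtain ⟨p, s, hps⟩ := ih (by omega)
      refine ⟨p, s ++ (k + 2) :: B (k + 1), fun u => ?_⟩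
      simp only [asm]
      rw [hps, Function.update_of_ne (fun h' => h h'.symm)]
      simp [List.append_assoc]

/-- two blocks in their context -/
theorem ctx2 (B : ℕ → List ℕ) {i j : ℕ} (hij : i < j) : ∀ k, j ≤ k → ∃ p m s : List ℕ,
    ∀ u v, asm k (Function.update (Function.update B i u) j v) = p ++ (u ++ (m ++ (v ++ s))) := by
  intro k
  induction k with
  | zero => intro h; omega
  | succ k ih =>
    intro hj
    by_cases h : j = k + 1
    · subst h
      obtain ⟨p, s, hps⟩ := ctx1 B i k (by omega)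
      refine ⟨p, s ++ [k + 2], [], fun u v => ?_⟩
      simp only [asm, Function.update_self]
      have : asm k (Function.update (Function.update B i u) (k + 1) v) =
          asm k (Function.update B i u) := by
        apply asm_congr
        intro j hj
        rw [Function.update_of_ne (by omega)]
      rw [this, hps]
      simp [List.append_assoc]
    · obtain ⟨p, m, s, hps⟩ := ih (by omega)
      refine ⟨p, m, s ++ (k + 2) :: B (k + 1), fun u v => ?_⟩
      simp only [asm]
      rw [hps, Function.update_of_ne (fun h' => h h'.symm), Function.update_of_ne (by omega)]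
      simp [List.append_assoc]

/-- two letters of a list -/
theorem two_mem {l : List ℕ} {x y : ℕ} (hx : x ∈ l) (hy : y ∈ l) (hxy : x ≠ y) :
    ∃ P c R : List ℕ, l = P ++ x :: (c ++ y :: R) ∨ l = P ++ y :: (c ++ x :: R) := by
  obtain ⟨s, t, rfl⟩ := List.append_of_mem hx
  rw [List.mem_append, List.mem_cons] at hy
  rcases hy with h | h | h
  · obtain ⟨P, c, rfl⟩ := List.append_of_mem h
    exact ⟨P, c, t, Or.inr (by simp)⟩
  · exact absurd h.symm hxy
  · obtain ⟨c, R, rfl⟩ := List.append_of_mem h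
    exact ⟨s, c, R, Or.inl rfl⟩

theorem mul_of {k : ℕ} {C : ℕ → List ℕ} (h : OkB k C) {j : ℕ} (hj : j ≤ k) {c : List ℕ}
    (hc : ∀ a ∈ c, a ∈ C j) : ∀ a ∈ c, 2 ≤ (asm k C).count a := by
  intro a ha
  have h1 := hc a ha
  rw [count_asm (h.ok j hj a h1)]
  exact h.ml j hj a h1

/-- the block form of `F`, `F'` -/
theorem cm2_of {β : FIC} (hF : Sys.F (RR β)) (hF' : Sys.F' (RR β)) : Cm2 β := by
  intro k C hC i hi j hj hji A D x y hCi hxy hx hy
  obtain ⟨P, c, R, hd⟩ := two_mem hx hy hxy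
  have hcj : ∀ a ∈ c, a ∈ C j := by
    intro a ha
    rcases hd with h | h <;> rw [h] <;> simp [ha]
  have hM := mul_of hC hj hcj
  rcases Nat.lt_or_ge i j with hij | hij
  · obtain ⟨p, m, s, hps⟩ := ctx2 C hij k hj
    have e1 : asm k C = p ++ (C i ++ (m ++ (C j ++ s))) := by
      rw [← hps (C i) (C j)]
      congr 1
      rw [Function.update_eq_self, Function.update_eq_self]
    have e2 : asm k (Function.update C i (A ++ y :: x :: D)) =
        p ++ ((A ++ y :: x :: D) ++ (m ++ (C j ++ s))) := by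
      rw [← hps (A ++ y :: x :: D) (C j)]
      congr 1
      funext t
      by_cases ht : t = j
      · subst ht
        rw [Function.update_self, Function.update_of_ne hji]
      · rw [Function.update_of_ne ht]
    rw [e1] at hM
    rw [e1, e2]
    rw [hCi] at hM ⊢
    rcases hd with h | h
    · rw [h] at hM ⊢
      have h1 := hF (p ++ A) (D ++ (m ++ P)) c (R ++ s) x y (by
        intro a ha
        have := hM a ha
        simpa [List.append_assoc] using this)
      simpa [List.append_assoc] using h1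
    · rw [h] at hM ⊢
      have h1 := hF (p ++ A) (D ++ (m ++ P)) c (R ++ s) y x (by
        intro a ha
        have := hM a ha
        simp only [List.count_append, List.count_cons] at this ⊢
        omega)
      have h2 := RR.symm h1
      simpa [List.append_assoc] using h2
  · have hij' : j < i := by omega
    obtain ⟨p, m, s, hps⟩ := ctx2 C hij' k hi
    have e1 : asm k C = p ++ (C j ++ (m ++ (C i ++ s))) := by
      rw [← hps (C j) (C i)]
      congr 1
      rw [Function.update_eq_self, Function.update_eq_self]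
    have e2 : asm k (Function.update C i (A ++ y :: x :: D)) =
        p ++ (C j ++ (m ++ ((A ++ y :: x :: D) ++ s))) := by
      rw [← hps (C j) (A ++ y :: x :: D)]
      congr 1
      rw [Function.update_eq_self]
    rw [e1] at hM
    rw [e1, e2]
    rw [hCi] at hM ⊢
    rcases hd with h | h
    · rw [h] at hM ⊢
      have h1 := hF' (p ++ P) (R ++ (m ++ A)) c (D ++ s) x y (by
        intro a ha
        have := hM a ha
        simpa [List.append_assoc] using this)
      simpa [List.append_assoc] using h1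
    · rw [h] at hM ⊢
      have h1 := hF' (p ++ P) (R ++ (m ++ A)) c (D ++ s) y x (by
        intro a ha
        have := hM a ha
        simp only [List.count_append, List.count_cons] at this ⊢
        omega)
      have h2 := RR.symm h1
      simpa [List.append_assoc] using h2

/-- the base (h) -/
theorem baseH_of (cph : MWHP.CphStmt) {n : ℕ} {β : FIC} (hn : 1 ≤ n) (hP : MWZ.Per n (RR β))
    (hB : MWZ.BaseH n (RR β)) (hR : MWZ.R n (RR β)) : MWHP.BaseH n β := by
  obtain ⟨hF, hF', h1, h2⟩ := hB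
  have hC : Cm2 β := cm2_of hF hF'
  refine ⟨⟨hn, hP, hR, ?_, ⟨?_, ?_⟩, cph β hC⟩, hC⟩
  · have a1 : RR β [0, 1, 0, 1] [0, 1, 1, 0] := hF' [] [] [] [] 0 1 (fun a h => by cases h)
    have a2 : RR β [1, 0, 1, 0] [0, 1, 1, 0] := hF [] [] [] [] 1 0 (fun a h => by cases h)
    exact β.trans a1 (RR.symm a2)
  · intro p w q x h
    exact h1 p w q x h
  · intro p w w' q x h
    exact h2 p w w' q x (fun a ha => h a (List.mem_append.1 ha))

/-- the result of the base (h) -/
theorem sufH (cph : MWHP.CphStmt) (h2 : ∀ (n : ℕ) (β : FIC), MWHQ.H2 n β → DistF β)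
    (h3 : ∀ n : ℕ, F.TdiStmt n) (h4 : ∀ n : ℕ, F.Di4Stmt n) (h5 : ∀ n : ℕ, F.Di5Stmt n) :
    MWZ.SufH := by
  intro n β hn hP hS
  obtain ⟨hB, hR, hS⟩ := hS
  have hb := baseH_of cph hn hP hB hR
  rcases hS with ⟨a1, a2⟩ | ⟨a1, a2, a3, a4, a5⟩ | ⟨⟨b1, b2, b3, b4, b5, b6, b7, b8⟩, hJ | hK⟩
  · exact distF_modF (h2 n β ⟨hb, a1, a2⟩)
  · exact distF_modF (h3 n β ⟨hb, a1, a2, a3, a4, a5⟩)
  · exact distF_modF (h4 n β ⟨⟨hb, b1, b2, b3, b4, b5, b6, b7, b8⟩, hJ.1, hJ.2⟩)
  · refine distF_modF (h5 n β ⟨⟨hb, b1, b2, b3, b4, b5, b6, b7, b8⟩, ?_⟩)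
    have h6 : RR β [0, 2, 0, 3, 0] (MWZ.X 1 ++ 2 :: (MWZ.X (n + 1) ++ 3 :: MWZ.X (n + 1))) := hK
    have e : (MWZ.X 1 ++ 2 :: (MWZ.X (n + 1) ++ 3 :: MWZ.X (n + 1))) =
        [0, 2] ++ List.replicate (n + 1) 0 ++ [3] ++ List.replicate (n + 1) 0 := by
      simp [MWZ.X, List.append_assoc]
    rw [e] at h6
    exact h6

/-- one period -/
theorem sufH1 (cph : MWHP.CphStmt) (n : ℕ) (hn : 1 ≤ n) (h2 : ∀ β : FIC, MWHQ.H2 n β → DistF β)
    (h3 : F.TdiStmt n) (h4 : F.Di4Stmt n) (h5 : F.Di5Stmt n) : MWZ.SufH1 n := by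
  intro β hP hS
  obtain ⟨hB, hR, hS⟩ := hS
  have hb := baseH_of cph hn hP hB hR
  rcases hS with ⟨a1, a2⟩ | ⟨a1, a2, a3, a4, a5⟩ | ⟨⟨b1, b2, b3, b4, b5, b6, b7, b8⟩, hJ | hK⟩
  · exact distF_modF (h2 β ⟨hb, a1, a2⟩)
  · exact distF_modF (h3 β ⟨hb, a1, a2, a3, a4, a5⟩)
  · exact distF_modF (h4 β ⟨⟨hb, b1, b2, b3, b4, b5, b6, b7, b8⟩, hJ.1, hJ.2⟩)
  · refine distF_modF (h5 β ⟨⟨hb, b1, b2, b3, b4, b5, b6, b7, b8⟩, ?_⟩)
    have h6 : RR β [0, 2, 0, 3, 0] (MWZ.X 1 ++ 2 :: (MWZ.X (n + 1) ++ 3 :: MWZ.X (n + 1))) := hK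
    have e : (MWZ.X 1 ++ 2 :: (MWZ.X (n + 1) ++ 3 :: MWZ.X (n + 1))) =
        [0, 2] ++ List.replicate (n + 1) 0 ++ [3] ++ List.replicate (n + 1) 0 := by
      simp [MWZ.X, List.append_assoc]
    rw [e] at h6
    exact h6

end Pool.Agent.MWHP.Br
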