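import Pool.Agent.Helper48_MWHP.Comp
import Pool.Agent.Helper48_MWHP.Bridge

/-!
# MP_23468a_al: sufficiency of the base (h), all periods, without hypotheses
-/

set_option autoImplicit false

namespace Pool.Agent.MWHP

open Pool.Agent.Helper14_MV Pool.Agent.Helper2_MV Pool.Agent.MVO

/-- **SUFFICIENCY IN THE LR WORLD, ALL PERIODS** -/
theorem sufH : MWZ.SufH :=
  Br.sufH Comp.c_MWHP_Cph (fun n β h => Comp.c_MWHQ_Di2 n β h) Comp.c_MWHP_F_Tdi Comp.c_MWHP_F_Di4
    Comp.c_MWHP_F_Di5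

/-- distributivity: the system h2 -/
theorem dist2 (n : ℕ) (β : FIC) (h : MWHQ.H2 n β) : DistF β := Comp.c_MWHQ_Di2 n β h

/-- distributivity: the system h3 -/
theorem dist3 (n : ℕ) (β : FIC) (h : H3 n β) : DistF β := Comp.c_MWHP_F_Tdi n β h

/-- distributivity: the system h4 -/
theorem dist4 (n : ℕ) (β : FIC) (h : H4 n β) : DistF β := Comp.c_MWHP_F_Di4 n β h

/-- distributivity: the system h5 -/
theorem dist5 (n : ℕ) (β : FIC) (h : H5 n β) : DistF β := Comp.c_MWHP_F_Di5 n β h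

end Pool.Agent.MWHP
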