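import Pool.Agent.Helper48_MWHP.H39_UX3

/-!
# MWH row UX4 (helper39)
-/

set_option autoImplicit false

namespace Pool.Agent.MWHP.F.H39

open Pool.Agent.Helper14_MV Pool.Agent.Helper2_MV Pool.Agent.MVO Pool.Agent.MWL Pool.Agent.MWS
open Pool.Agent.MWHP.F.H59


open Pool.Agent.MWH

variable {n : ℕ}

theorem vd_ux4 : Vd 3 (vc [0, 0, 1, 1]) (vc [1, 1, 0, 2]) 3 := by
  refine ⟨by norm_num, by simp [vc], by simp [vc], ?_, by decide, by decide⟩
  intro j hj hj0
  interval_cases j <;> simp_all [vc]

theorem ux4 (hPSL : PslStmt n) (hPIN : PinStmt n) : Ux4Stmt n := by
  intro β θ hβ hle k a b i p hV hL hbi hq hbz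
  obtain ⟨q, q', hqq, hqp, hbq, hbq', hb0⟩ := hq
  obtain ⟨hpi, hik, hap, hai, haz⟩ := hL
  have hbp : b p = 0 := by
    rcases hV.un p (by omega) (by omega) with h | h
    · omega
    · exact h
  constructor
  · refine fwd2 hPSL hβ hle (fun j => if j < q' then 0 else if j < p then 1 else
      if j = p then 2 else 3) ?_ hV ?_ vd_ux4 ?_ ?_ ?_ ?_ hbi ?_
    · show (if i < q' then 0 else if i < p then 1 else if i = p then 2 else 3) = 3
      rw [if_neg (by omega), if_neg (by omega), if_neg (by omega)]
    · constructor
      · intro x y hxy _
        split_ifs <;> omega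
      · intro x _
        split_ifs <;> omega
    · intro j' hj'
      interval_cases j'
      · refine dm0 ?_
        intro j hj hg
        have hr : j < q' := by
          split_ifs at hg <;> omega
        exact haz j hj (by omega) (by omega)
      · refine dm0 ?_
        intro j hj hg
        have hr : j < p := by
          split_ifs at hg <;> omega
        exact haz j hj (by omega) (by omega)
      · refine dm1 rfl p hap.le ?_
        intro j hj hg hne
        have hr : j = p := by
          split_ifs at hg <;> omega
        exact absurd hr hne
      · refine dm1 rfl i hai.le ?_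
        intro j hj hg hne
        have hr : p < j := by
          split_ifs at hg <;> omega
        exact haz j hj (by omega) hne
    · intro j' hj'
      interval_cases j'
      · refine dm1 rfl q hbq.le ?_
        intro j hj hg hne
        have hr : j < q' := by
          split_ifs at hg <;> omega
        exact hb0 j (by omega) hne (by omega)
      · refine dm1 rfl q' hbq'.le ?_
        intro j hj hg hne
        have hr : q' ≤ j ∧ j < p := by
          split_ifs at hg <;> omega
        exact hb0 j hr.2 (by omega) hne
      · refine dm0 ?_
        intro j hj hg
        have hr : j = p := by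
          split_ifs at hg <;> omega
        rw [hr]
        exact hbp
      · exact dm2 (by simp [vc])
    · intro j hj hg hne
      have hr : p < j := by
        split_ifs at hg <;> omega
      refine ⟨haz j hj (by omega) hne, ?_⟩
      by_cases hji : j < i
      · exact Or.inl hji
      · exact Or.inr (hbz j (by omega) hj)
    · simp [vc, hai]
    · simp [vc]
  · refine bwd2 hPIN hβ hle (fun j => if j = 0 then q else if j = 1 then q' else
      if j = 2 then p else i) ?_ hV ?_ ?_ vd_ux4 ?_ ?_ ?_ ?_
    · simp
    · intro j hj
      interval_cases j <;> simp <;> omega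
    · simp
      omega
    · intro j hj
      interval_cases j <;> simp [vc] <;> omega
    · simp [vc, hai]
    · simp [vc]
      omega
    · simp [vc]

end Pool.Agent.MWHP.F.H39
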