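import Pool.Agent.MWHP.StmtsF

/-!
# Block MWH: a template for the rows `Uxx`, `Vxx` (helper59)
-/

set_option autoImplicit false

namespace Pool.Agent.MWHP.F.H59

open Pool.Agent.Helper14_MV Pool.Agent.Helper2_MV Pool.Agent.MVO Pool.Agent.MWL Pool.Agent.MWS


open Pool.Agent.MWH

variable {n : ℕ}

/-- from arbitrary types to a canonical word, states `xy`, `yx` -/
theorem fwd (hPS0 : Ps0Stmt n) {β θ : FIC} (hβ : BaseH n β) (hle : β ≤ θ) {k k0 : ℕ} {a b : ℕ → ℕ}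
    (g : ℕ → ℕ) {la lb : List ℕ} {i i0 : ℕ} (hg : g i = i0) (hV : Vd k a b i)
    (hm : BMap k k0 g) (hV0 : Vd k0 (vc la) (vc lb) i0) (hDa : Dm k k0 g a (vc la))
    (hDb : Dm k k0 g b (vc lb)) (hc : ∀ j ≤ k, g j = i0 → j ≠ i → a j = 0 ∧ b j = 0)
    (ha : a i = 1 ↔ vc la i0 = 1) (hb : b i = 1 ↔ vc lb i0 = 1)
    (h : Tr θ k a b i Stt.xy Stt.yx) : Ce θ k0 la lb i0 Stt.xy Stt.yx := by
  subst hg
  exact hPS0 β θ hβ hle k k0 g a b (vc la) (vc lb) i hm hV hV0 hDa hDb hc ha hb Stt.xy Stt.yx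
    (by intro h; cases h) (by intro h; cases h) h

/-- from a canonical word to arbitrary types, states `xy`, `yx` -/
theorem bwd (hPIN : PinStmt n) {β θ : FIC} (hβ : BaseH n β) (hle : β ≤ θ) {k k0 : ℕ} {a b : ℕ → ℕ}
    (f : ℕ → ℕ) {la lb : List ℕ} {i i0 : ℕ} (hf : f i0 = i) (hV : Vd k a b i)
    (hm : ∀ j < k0, f j < f (j + 1)) (hk : f k0 ≤ k) (hV0 : Vd k0 (vc la) (vc lb) i0)
    (hc : ∀ j ≤ k0, (vc la j ≠ 0 → a (f j) ≠ 0) ∧ (2 ≤ vc la j → 2 ≤ a (f j)) ∧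
        (vc lb j ≠ 0 → b (f j) ≠ 0) ∧ (2 ≤ vc lb j → 2 ≤ b (f j)))
    (ha : vc la i0 = 1 ↔ a i = 1) (hb : vc lb i0 = 1 ↔ b i = 1)
    (h : Ce θ k0 la lb i0 Stt.xy Stt.yx) : Tr θ k a b i Stt.xy Stt.yx := by
  subst hf
  exact hPIN β θ hβ hle k0 k f (vc la) (vc lb) a b i0 hm hk hV0 hV hc ha hb Stt.xy Stt.yx
    (by intro h; cases h) (by intro h; cases h) h

/-- a block with entry `2` -/
theorem dm2 {k : ℕ} {f a a' : ℕ → ℕ} {j' : ℕ} (h : 2 ≤ a' j') :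
    2 ≤ a' j' ∨ (a' j' = 1 ∧ ∃ j0, a j0 ≤ 1 ∧ ∀ j ≤ k, f j = j' → j ≠ j0 → a j = 0) ∨
      (∀ j ≤ k, f j = j' → a j = 0) := Or.inl h

/-- a block with entry `1` -/
theorem dm1 {k : ℕ} {f a a' : ℕ → ℕ} {j' : ℕ} (h : a' j' = 1) (j0 : ℕ) (h0 : a j0 ≤ 1)
    (h1 : ∀ j ≤ k, f j = j' → j ≠ j0 → a j = 0) :
    2 ≤ a' j' ∨ (a' j' = 1 ∧ ∃ j0, a j0 ≤ 1 ∧ ∀ j ≤ k, f j = j' → j ≠ j0 → a j = 0) ∨
      (∀ j ≤ k, f j = j' → a j = 0) := Or.inr (Or.inl ⟨h, j0, h0, h1⟩)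

/-- a block with entry `0` -/
theorem dm0 {k : ℕ} {f a a' : ℕ → ℕ} {j' : ℕ} (h1 : ∀ j ≤ k, f j = j' → a j = 0) :
    2 ≤ a' j' ∨ (a' j' = 1 ∧ ∃ j0, a j0 ≤ 1 ∧ ∀ j ≤ k, f j = j' → j ≠ j0 → a j = 0) ∨
      (∀ j ≤ k, f j = j' → a j = 0) := Or.inr (Or.inr h1)

end Pool.Agent.MWHP.F.H59
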