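import Pool.Agent.MWHP.StmtsF

/-!
# Row BJ5 of squad MWHP
-/

namespace Pool.Agent.MWHP.F.H8

open Pool.Agent.Helper14_MV Pool.Agent.Helper2_MV Pool.Agent.MVO Pool.Agent.MWL Pool.Agent.MWS
open Pool.Agent.MWH

variable {n : ℕ}

variable {β : FIC}

theorem RR.tr {l m r : List ℕ} (h : RR β l m) (h' : RR β m r) : RR β l r := β.trans h h'

/-- replacement inside a word -/
theorem RR.mid (p q : List ℕ) {l m : List ℕ} (h : RR β l m) :
    RR β (p ++ (l ++ q)) (p ++ (m ++ q)) :=
  (RR.refl p).append (h.append (RR.refl q))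

/-- `0^m ≈ 0^(m + n)` for `m ≥ 2` -/
theorem ap' (ap : RR β [0, 0] (List.replicate (n + 2) 0)) (m : ℕ) (hm : 2 ≤ m) :
    RR β (List.replicate m 0) (List.replicate (m + n) 0) := by
  obtain ⟨r, rfl⟩ := Nat.exists_eq_add_of_le hm
  have h := ap.append (RR.refl (List.replicate r 0))
  have e1 : [0, 0] ++ List.replicate r 0 = List.replicate (2 + r) 0 := by
    rw [← List.replicate_append_replicate]; rfl
  have e2 : List.replicate (n + 2) 0 ++ List.replicate r 0 = List.replicate (2 + r + n) 0 := by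
    rw [List.replicate_append_replicate]
    congr 1
    omega
  rw [e1, e2] at h
  exact h

/-- row BJ5 -/
theorem bj5 : Bj5Stmt n := by
  intro β hβ
  have hn : 1 ≤ n := hβ.pos
  have ap := hβ.ap
  have j3 := hβ.j3
  have e1 : mw 2 (Bit.J 3).a = [0, 2, 0, 3, 0] := by decide
  have e2 : mw 2 (ad n (Bit.J 3).a 2) = [0, 2, 0, 3, 0] ++ List.replicate (2 * n) 0 := by
    have e : (Bit.J 3).a 2 + 2 * n = 2 * n + 1 := by
      show 1 + 2 * n = 2 * n + 1
      omega
    have : mw 2 (ad n (Bit.J 3).a 2) = [0, 2, 0, 3] ++ List.replicate ((Bit.J 3).a 2 + 2 * n) 0 := rfl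
    rw [this, e, List.replicate_succ]
    rfl
  have e3 : mw 2 (Bit.D 1).a = [0, 2, 0, 3, 0, 0] := by decide
  have e4 : mw 2 (ad n (Bit.D 1).a 1) = [0, 2] ++ List.replicate (2 * n + 1) 0 ++ [3, 0, 0] := by
    have e : (Bit.D 1).a 1 + 2 * n = 2 * n + 1 := by
      show 1 + 2 * n = 2 * n + 1
      omega
    have : mw 2 (ad n (Bit.D 1).a 1) =
        [0, 2] ++ (List.replicate ((Bit.D 1).a 1 + 2 * n) 0 ++ [3, 0, 0]) := rfl
    rw [this, e]
    simp
  refine ⟨⟨hβ.toS8, ?_⟩, ?_⟩
  · show RR β (mw 2 (Bit.J 3).a) (mw 2 (ad n (Bit.J 3).a 2))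
    rw [e1, e2]
    have h1 := j3.append (RR.refl (List.replicate (2 * n) 0))
    have h2 : RR β ([0, 2] ++ List.replicate (n + 1) 0 ++ [3] ++ List.replicate (n + 1) 0)
        ([0, 2] ++ List.replicate (n + 1) 0 ++ [3] ++ List.replicate (n + 1) 0 ++
          List.replicate (2 * n) 0) := by
      have h3 := ap' ap (n + 1) (by omega)
      have h4 := RR.tr h3 (ap' ap (n + 1 + n) (by omega))
      have e5 : List.replicate (n + 1 + n + n) 0 =
          List.replicate (n + 1) 0 ++ List.replicate (2 * n) 0 := by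
        rw [List.replicate_append_replicate]
        congr 1
        omega
      rw [e5] at h4
      have h5 := (RR.refl (β := β) ([0, 2] ++ List.replicate (n + 1) 0 ++ [3])).append h4
      simpa [List.append_assoc] using h5
    exact RR.tr j3 (RR.tr h2 (RR.symm h1))
  · show RR β (mw 2 (Bit.D 1).a) (mw 2 (ad n (Bit.D 1).a 1))
    rw [e3, e4]
    have h1 := j3.append (RR.refl [0])
    have h2 : RR β ([0, 2] ++ List.replicate (n + 1) 0 ++ [3] ++ List.replicate (n + 1) 0 ++ [0])
        ([0, 2] ++ List.replicate (2 * n + 1) 0 ++ [3, 0, 0]) := by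
      have h3 := ap' ap (n + 1) (by omega)
      have e6 : n + 1 + n = 2 * n + 1 := by omega
      rw [e6] at h3
      have e7 : List.replicate (n + 1) 0 ++ [0] = List.replicate (n + 2) 0 := by
        rw [show [0] = List.replicate 1 0 from rfl, List.replicate_append_replicate]
      have h4 := ((RR.refl (β := β) [0, 2]).append h3).append ((RR.refl (β := β) [3]).append
        (RR.symm ap))
      rw [← e7] at h4
      simpa [List.append_assoc] using h4
    have h0 : ([0, 2, 0, 3, 0] : List ℕ) ++ [0] = [0, 2, 0, 3, 0, 0] := rfl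
    rw [h0] at h1
    exact RR.tr h1 h2

end Pool.Agent.MWHP.F.H8
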